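import Pool.Graph.R_pool_sql_team_seeded_3dad9d7b.NH36.Cz.A1
import Pool.Graph.R_pool_sql_team_seeded_3dad9d7b.NH36.Cz.A3

/-!
# Counting functions and their zeta functions: multiplication by `m - c`

If `g m = (m - c) f m` for all prime powers `m` then the zeta functions satisfy
`Z_f (s - 1) = Z_g s * Z_f s ^ c`; so `Z_f` has a meromorphic continuation if `Z_g` has.
-/

set_option autoImplicit false

open Complex Filter Topology Pool.Agent.Q193.Zeta Pool.Agent.NH36.Cz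

namespace Pool.Agent.H865.RV

section power

variable (F Z : ℂ → ℂ) (c : ℤ)

/-- `Z (s + N) ^ (c ^ N) ∏_{j < N} F (s + j + 1) ^ (c ^ j)` -/
noncomputable def pN (N : ℕ) (s : ℂ) : ℂ :=
  Z (s + N) ^ (c ^ N) * ∏ j ∈ Finset.range N, F (s + (j + 1 : ℕ)) ^ (c ^ j)

variable {F Z} {c}

lemma pN_succ {σ : ℝ} (h : ∀ s : ℂ, σ < s.re → Z (s - 1) = F s * Z s ^ c) (N : ℕ) (s : ℂ)
    (hs : σ < s.re + N + 1) : pN F Z c (N + 1) s = pN F Z c N s := by
  rw [pN, pN, Finset.prod_range_succ]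
  have h1 := h (s + (N + 1 : ℕ)) (by
    rw [Complex.add_re, Complex.natCast_re]
    push_cast
    linarith)
  have h2 : s + ((N + 1 : ℕ) : ℂ) - 1 = s + N := by push_cast; ring
  rw [h2] at h1
  rw [h1, mul_zpow, ← zpow_mul, ← pow_succ']
  ring

lemma pN_eq {σ : ℝ} (h : ∀ s : ℂ, σ < s.re → Z (s - 1) = F s * Z s ^ c) {n N : ℕ} (hn : n ≤ N)
    (s : ℂ) (hs : σ < s.re + n + 1) : pN F Z c N s = pN F Z c n s := by
  induction N, hn using Nat.le_induction with
  | base => rfl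
  | succ N hN' ih =>
    rw [pN_succ h N s, ih]
    have : (n : ℝ) ≤ N := by exact_mod_cast hN'
    linarith

/-- If `Z (s - 1) = W s * Z s ^ c` and `W` has a meromorphic continuation, then `Z` has. -/
theorem of_power {W : ℂ → ℂ} (hW : HasCont W) {τ : ℝ}
    (hZ : ∀ s : ℂ, τ < s.re → MeromorphicAt Z s)
    (h : ∀ s : ℂ, τ < s.re → Z (s - 1) = W s * Z s ^ c) : HasCont Z := by
  obtain ⟨F, hF, σ₀, hF2⟩ := hW
  set σ : ℝ := max σ₀ τ with hσ
  have h1 : ∀ s : ℂ, σ < s.re → Z (s - 1) = F s * Z s ^ c := fun s hs => by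
    rw [hF2 s (lt_of_le_of_lt (le_max_left _ _) hs)]
    exact h s (lt_of_le_of_lt (le_max_right _ _) hs)
  have h2 : ∀ s : ℂ, σ < s.re → MeromorphicAt Z s := fun s hs =>
    hZ s (lt_of_le_of_lt (le_max_right _ _) hs)
  let n : ℂ → ℕ := fun s => ⌈σ - s.re⌉.toNat
  have hn : ∀ s, σ < s.re + n s + 1 := by
    intro s
    have a1 : σ - s.re ≤ ⌈σ - s.re⌉ := Int.le_ceil _
    have a2 : (⌈σ - s.re⌉ : ℝ) ≤ ((⌈σ - s.re⌉.toNat : ℕ) : ℝ) := by
      exact_mod_cast Int.self_le_toNat _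
    change σ < s.re + ((⌈σ - s.re⌉.toNat : ℕ) : ℝ) + 1
    linarith
  refine ⟨fun s => pN F Z c (n s) s, fun z _ => ?_, σ, fun s hs => ?_⟩
  · let N : ℕ := (⌈σ - z.re⌉ + 1).toNat
    have hN1 : σ < z.re + N := by
      have a1 : σ - z.re ≤ ⌈σ - z.re⌉ := Int.le_ceil _
      have a2 : ((⌈σ - z.re⌉ + 1 : ℤ) : ℝ) ≤ ((N : ℕ) : ℝ) := by
        exact_mod_cast Int.self_le_toNat _
      push_cast at a2
      linarith
    have hm : MeromorphicAt (pN F Z c N) z := by
      refine MeromorphicAt.mul ((mero_shift _ _ (h2 _ ?_)).zpow _) ?_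
      · rw [Complex.add_re, Complex.natCast_re]
        exact hN1
      · exact MeromorphicAt.fun_prod fun j _ => (mero_shift _ _ (hF _ trivial)).zpow _
    refine hm.congr ?_
    refine Filter.Eventually.filter_mono nhdsWithin_le_nhds ?_
    have hev : ∀ᶠ s : ℂ in 𝓝 z, z.re - 1 < s.re :=
      (Complex.continuous_re.tendsto z).eventually (lt_mem_nhds (by linarith))
    filter_upwards [hev] with s hs
    refine pN_eq h1 ?_ s (hn s)
    refine Int.toNat_le_toNat ?_
    rw [← Int.ceil_add_one]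
    exact Int.ceil_le_ceil (by linarith)
  · have a1 : n s = 0 := by
      have : ⌈σ - s.re⌉ ≤ 0 := Int.ceil_le.mpr (by push_cast; linarith)
      exact Int.toNat_of_nonpos this
    change pN F Z c (n s) s = Z s
    rw [a1, pN]
    simp

end power

/-- Multiplication by `m - c`. -/
theorem hc_of_sub (f g : ℕ → ℂ) (c : ℤ) (hf : Bd f)
    (hg : ∀ m, IsPrimePow m → g m = ((m : ℂ) - c) * f m) (hG : HC g) : HC f := by
  obtain ⟨C, k, h⟩ := hf
  have e : coef g = (fun m : ℕ => ((m : ℂ) ^ (1 : ℕ)) * coef f m) - (c : ℂ) • coef f := by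
    funext m
    rw [Pi.sub_apply, Pi.smul_apply, smul_eq_mul]
    unfold coef
    split_ifs with hm
    · rw [hg m hm]
      ring
    · ring
  refine of_power (c := c) (τ := (k : ℝ) + 1 + 1) hG ?_ ?_
  · intro s hs
    exact (A3.analytic h (by linarith : (k : ℝ) + 1 < s.re)).cexp.meromorphicAt
  · intro s hs
    have h1 : (k : ℝ) + 1 < (s - 1).re := by
      rw [Complex.sub_re, Complex.one_re]
      linarith
    have h2 : (k : ℝ) + 1 < s.re := by linarith
    have h1' : (k : ℝ) + 1 < (s - ((1 : ℕ) : ℂ)).re := by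
      rw [Nat.cast_one]
      exact h1
    rw [← Complex.exp_int_mul, ← Complex.exp_add, e,
      LSeries_sub (A3.summable_shift (A3.summable h h1')) ((A3.summable h h2).smul _),
      A3.lseries_shift, LSeries_smul, Nat.cast_one]
    congr 1
    ring

/-- Multiplication by `m - c`, `c` a natural number. -/
theorem hc_of_sub_nat (f g : ℕ → ℂ) (c : ℕ) (hf : Bd f)
    (hg : ∀ m, IsPrimePow m → g m = ((m : ℂ) - c) * f m) (hG : HC g) : HC f :=
  hc_of_sub f g c hf (fun m hm => by rw [hg m hm, Int.cast_natCast]) hG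

/-- Multiplication by `m + 1`. -/
theorem hc_of_add_one (f g : ℕ → ℂ) (hf : Bd f)
    (hg : ∀ m, IsPrimePow m → g m = ((m : ℂ) + 1) * f m) (hG : HC g) : HC f :=
  hc_of_sub f g (-1) hf (fun m hm => by
    rw [hg m hm, Int.cast_neg, Int.cast_one, sub_neg_eq_add]) hG

/-- Sums. -/
theorem hc_add (f g h : ℕ → ℂ) (hf : Bd f) (hg : Bd g)
    (hfg : ∀ m, IsPrimePow m → h m = f m + g m) (hF : HC f) (hG : HC g) : HC h := by
  obtain ⟨C₁, k₁, h₁⟩ := hf
  obtain ⟨C₂, k₂, h₂⟩ := hg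
  refine (hF.mul hG).congr (τ := max ((k₁ : ℝ) + 1) ((k₂ : ℝ) + 1)) fun s hs => ?_
  have s₁ := coef_summable f C₁ k₁ h₁ s (lt_of_le_of_lt (le_max_left _ _) hs)
  have s₂ := coef_summable g C₂ k₂ h₂ s (lt_of_le_of_lt (le_max_right _ _) hs)
  have e : coef h = coef f + coef g := by
    funext m
    rw [Pi.add_apply]
    by_cases hm : IsPrimePow m
    · rw [A1.coef_of_pp hm, A1.coef_of_pp hm, A1.coef_of_pp hm, hfg m hm, add_div]
    · rw [A1.coef_of_not hm, A1.coef_of_not hm, A1.coef_of_not hm, add_zero]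
  rw [e, LSeries_add s₁ s₂, Complex.exp_add]

/-- Division by `m - 1`. -/
theorem hc_of_sub_one (f g : ℕ → ℂ) (hf : Bd f)
    (hg : ∀ m, IsPrimePow m → g m = ((m : ℂ) - 1) * f m) (hG : HC g) : HC f :=
  t_A3 f g 1 le_rfl hf (fun m hm => by rw [hg m hm, pow_one]) hG

/-- Division by a power of `m - 1`. -/
theorem hc_of_sub_one_pow (f : ℕ → ℂ) (k : ℕ) (hf : ∀ j, Bd fun m => ((m : ℂ) - 1) ^ j * f m)
    (hG : HC fun m => ((m : ℂ) - 1) ^ k * f m) : HC f := by
  induction k with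
  | zero =>
    have e : (fun m : ℕ => ((m : ℂ) - 1) ^ 0 * f m) = f := funext fun m => by
      rw [pow_zero, one_mul]
    rw [e] at hG
    exact hG
  | succ k ih =>
    exact ih (hc_of_sub_one _ _ (hf k) (fun m _ => by ring) hG)

end Pool.Agent.H865.RV
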