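import Pool.Graph.R_pool_sql_team_seeded_3dad9d7b.NH36.Cz.Main
import Pool.Agent.H865.RV.An

/-!
# From the solutions in a torus to all solutions of a system of bilinear equations
-/

set_option autoImplicit false

open Pool.Agent.Q193.Zeta Pool.Agent.NH36.Cz

namespace Pool.Agent.H865.RV

section general

/-- A number attached to the finite fields, invariant under isomorphisms, is a function of the
cardinality. -/
theorem exists_fun (φ : ∀ (K : Type) [Field K], ℕ)
    (hφ : ∀ (K L : Type) [Field K] [Field L], (K ≃+* L) → φ K = φ L) :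
    ∃ f : ℕ → ℂ, ∀ (K : Type) [Field K] [Finite K], f (Nat.card K) = (φ K : ℂ) := by
  have key : ∀ m : ℕ, ∃ y : ℂ, ∀ (K : Type) [Field K] [Finite K], Nat.card K = m → y = (φ K : ℂ) := by
    intro m
    by_cases hm : IsPrimePow m
    · obtain ⟨L, _, _, hL⟩ := exists_card hm
      refine ⟨(φ L : ℂ), fun K _ _ hK => ?_⟩
      have h3 : Nat.card L = Nat.card K := hL.trans hK.symm
      have := Fintype.ofFinite L
      have := Fintype.ofFinite K
      rw [Nat.card_eq_fintype_card, Nat.card_eq_fintype_card] at h3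
      exact congrArg _ (hφ _ _ (FiniteField.ringEquivOfCardEq h3))
    · refine ⟨0, fun K _ _ hK => ?_⟩
      have := Fintype.ofFinite K
      refine absurd ?_ hm
      rw [← hK, Nat.card_eq_fintype_card]
      exact FiniteField.isPrimePow_card K
  choose f hf using key
  exact ⟨f, fun K _ _ => hf _ K rfl⟩

/-- The growth. -/
theorem bd_of {f : ℕ → ℂ} (φ : ∀ (K : Type) [Field K], ℕ)
    (hf : ∀ (K : Type) [Field K] [Finite K], f (Nat.card K) = (φ K : ℂ)) (k : ℕ)
    (hk : ∀ (K : Type) [Field K] [Finite K], φ K ≤ Nat.card K ^ k) : Bd f := by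
  refine ⟨1, k, fun m hm => ?_⟩
  obtain ⟨K, _, _, rfl⟩ := exists_card hm
  rw [hf K, Complex.norm_natCast, Nat.cast_one, one_mul]
  exact_mod_cast hk K

end general

variable {a b c : ℕ}

/-- The solutions of the system `E` with nonzero coordinates in `V`. -/
def Sol (V : Finset (Fin a ⊕ Fin b)) (E : Fin c → Finset (Fin a × Fin b)) (K : Type) [Field K] :
    Type :=
  {z : Fin a ⊕ Fin b → K // (∀ v ∈ V, z v ≠ 0) ∧
    ∀ l, ∑ e ∈ E l, z (Sum.inl e.1) * z (Sum.inr e.2) = 0}

/-- The number of the solutions of the system `E` with nonzero coordinates in `V`. -/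
noncomputable def cn (V : Finset (Fin a ⊕ Fin b)) (E : Fin c → Finset (Fin a × Fin b)) (K : Type)
    [Field K] : ℕ := Nat.card (Sol V E K)

lemma cn_iso (V : Finset (Fin a ⊕ Fin b)) (E : Fin c → Finset (Fin a × Fin b)) (K L : Type)
    [Field K] [Field L] (e : K ≃+* L) : cn V E K = cn V E L := by
  refine Nat.card_congr (Equiv.subtypeEquiv (Equiv.piCongrRight fun _ => e.toEquiv) fun z => ?_)
  refine and_congr (forall₂_congr fun v _ => ?_) (forall_congr' fun l => ?_)
  · change z v ≠ 0 ↔ e (z v) ≠ 0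
    rw [ne_eq, ne_eq, map_eq_zero_iff e e.injective]
  · have h : ∑ x ∈ E l, ((Equiv.piCongrRight fun _ => e.toEquiv) z) (Sum.inl x.1) *
        ((Equiv.piCongrRight fun _ => e.toEquiv) z) (Sum.inr x.2) =
        e (∑ x ∈ E l, z (Sum.inl x.1) * z (Sum.inr x.2)) := by
      rw [map_sum]
      refine Finset.sum_congr rfl fun x _ => ?_
      rw [map_mul]
      rfl
    rw [h, map_eq_zero_iff e e.injective]

lemma cn_le (V : Finset (Fin a ⊕ Fin b)) (E : Fin c → Finset (Fin a × Fin b)) (K : Type)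
    [Field K] [Finite K] : cn V E K ≤ Nat.card K ^ (a + b) := by
  have h : Nat.card (Fin a ⊕ Fin b → K) = Nat.card K ^ (a + b) := by
    rw [Nat.card_fun, Nat.card_eq_fintype_card (α := Fin a ⊕ Fin b), Fintype.card_sum,
      Fintype.card_fin, Fintype.card_fin]
  rw [← h]
  exact Nat.card_le_card_of_injective Subtype.val Subtype.val_injective

/-- The counting function. -/
lemma exists_cn (V : Finset (Fin a ⊕ Fin b)) (E : Fin c → Finset (Fin a × Fin b)) :
    ∃ f : ℕ → ℂ, Bd f ∧ ∀ (K : Type) [Field K] [Finite K], f (Nat.card K) = (cn V E K : ℂ) := by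
  obtain ⟨f, hf⟩ := exists_fun (fun K _ => cn V E K) fun K L _ _ e => cn_iso V E K L e
  exact ⟨f, bd_of (fun K _ => cn V E K) hf (a + b) fun K _ _ => cn_le V E K, hf⟩

open Classical in
/-- The system without the terms that contain `v`. -/
noncomputable def del (v : Fin a ⊕ Fin b) (E : Fin c → Finset (Fin a × Fin b)) :
    Fin c → Finset (Fin a × Fin b) := fun l => (E l).filter fun e => Sum.inl e.1 ≠ v ∧ Sum.inr e.2 ≠ v

lemma del_sum (v : Fin a ⊕ Fin b) (E : Fin c → Finset (Fin a × Fin b)) {K : Type} [Field K]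
    (z z' : Fin a ⊕ Fin b → K) (h : ∀ w, w ≠ v → z' w = z w) (hv : z v = 0) (l : Fin c) :
    ∑ e ∈ del v E l, z' (Sum.inl e.1) * z' (Sum.inr e.2) =
      ∑ e ∈ E l, z (Sum.inl e.1) * z (Sum.inr e.2) := by
  classical
  unfold del
  rw [Finset.sum_filter]
  refine Finset.sum_congr rfl fun e _ => ?_
  split_ifs with h1
  · rw [h _ h1.1, h _ h1.2]
  · by_cases h2 : Sum.inl e.1 = v
    · rw [h2, hv, zero_mul]
    · have h3 : Sum.inr e.2 = v := by
        by_contra h3
        exact h1 ⟨h2, h3⟩
      rw [h3, hv, mul_zero]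

open Classical in
/-- The solutions with the coordinate `v` zero, times the units. -/
noncomputable def delE (V : Finset (Fin a ⊕ Fin b)) (v : Fin a ⊕ Fin b) (hv : v ∉ V)
    (E : Fin c → Finset (Fin a × Fin b)) (K : Type) [Field K] :
    {z : Sol V E K // z.1 v = 0} × Kˣ ≃ Sol (insert v V) (del v E) K where
  toFun x := ⟨Function.update x.1.1.1 v x.2, by
    refine ⟨fun w hw => ?_, fun l => ?_⟩
    · by_cases h : w = v
      · subst h
        rw [Function.update_self]
        exact x.2.ne_zero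
      · rw [Function.update_of_ne h]
        exact x.1.1.2.1 w (Finset.mem_of_mem_insert_of_ne hw h)
    · rw [del_sum v E x.1.1.1 _ (fun w hw => Function.update_of_ne hw _ _) x.1.2 l]
      exact x.1.1.2.2 l⟩
  invFun z := ⟨⟨⟨Function.update z.1 v 0, by
    refine ⟨fun w hw => ?_, fun l => ?_⟩
    · have h : w ≠ v := fun h => hv (h ▸ hw)
      rw [Function.update_of_ne h]
      exact z.2.1 w (Finset.mem_insert_of_mem hw)
    · rw [← del_sum v E (Function.update z.1 v 0) z.1
        (fun w hw => (Function.update_of_ne hw _ _).symm) (Function.update_self _ _ _) l]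
      exact z.2.2 l⟩, Function.update_self _ _ _⟩,
    Units.mk0 (z.1 v) (z.2.1 v (Finset.mem_insert_self _ _))⟩
  left_inv x := by
    refine Prod.ext (Subtype.ext (Subtype.ext ?_)) (Units.ext ?_)
    · change Function.update (Function.update x.1.1.1 v x.2) v 0 = x.1.1.1
      rw [Function.update_idem]
      conv_rhs => rw [← Function.update_eq_self v x.1.1.1]
      rw [x.1.2]
    · change Function.update x.1.1.1 v (x.2 : K) v = x.2
      rw [Function.update_self]
  right_inv z := by
    refine Subtype.ext ?_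
    change Function.update (Function.update z.1 v 0) v (z.1 v) = z.1
    rw [Function.update_idem, Function.update_eq_self]

open Classical in
/-- The solutions with the coordinate `v` nonzero. -/
noncomputable def insE (V : Finset (Fin a ⊕ Fin b)) (v : Fin a ⊕ Fin b)
    (E : Fin c → Finset (Fin a × Fin b)) (K : Type) [Field K] :
    {z : Sol V E K // ¬ z.1 v = 0} ≃ Sol (insert v V) E K where
  toFun x := ⟨x.1.1, fun w hw => by
    rcases Finset.mem_insert.1 hw with rfl | h
    · exact x.2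
    · exact x.1.2.1 w h, x.1.2.2⟩
  invFun z := ⟨⟨z.1, fun w hw => z.2.1 w (Finset.mem_insert_of_mem hw), z.2.2⟩,
    z.2.1 v (Finset.mem_insert_self _ _)⟩
  left_inv x := rfl
  right_inv z := rfl

instance (V : Finset (Fin a ⊕ Fin b)) (E : Fin c → Finset (Fin a × Fin b)) (K : Type) [Field K]
    [Finite K] : Finite (Sol V E K) := Subtype.finite

lemma card_units' (K : Type) [Field K] [Finite K] : (Nat.card Kˣ : ℂ) = (Nat.card K : ℂ) - 1 := by
  rw [Nat.card_units, Nat.cast_sub Nat.card_pos, Nat.cast_one]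

open Classical in
/-- One step. -/
lemma cn_step (V : Finset (Fin a ⊕ Fin b)) (v : Fin a ⊕ Fin b) (hv : v ∉ V)
    (E : Fin c → Finset (Fin a × Fin b)) (K : Type) [Field K] [Finite K] :
    (cn V E K : ℂ) = cn (insert v V) E K + (cn (insert v V) (del v E) K : ℂ) / (Nat.card K - 1) := by
  have h1 : Nat.card {z : Sol V E K // z.1 v = 0} + Nat.card {z : Sol V E K // ¬ z.1 v = 0} =
      cn V E K := by
    rw [← Nat.card_sum]
    exact Nat.card_congr (Equiv.sumCompl fun z : Sol V E K => z.1 v = 0)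
  have h2 : Nat.card {z : Sol V E K // ¬ z.1 v = 0} = cn (insert v V) E K :=
    Nat.card_congr (insE V v E K)
  have h3 : Nat.card {z : Sol V E K // z.1 v = 0} * Nat.card Kˣ = cn (insert v V) (del v E) K := by
    rw [← Nat.card_prod]
    exact Nat.card_congr (delE V v hv E K)
  have h4 : ((Nat.card Kˣ : ℕ) : ℂ) ≠ 0 := by
    exact_mod_cast (Nat.card_pos (α := Kˣ)).ne'
  rw [← h1, ← h3, h2]
  push_cast
  rw [← card_units']
  field_simp
  ring

/-- **From the torus to the affine space.** -/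
theorem hc_sol (H : ∀ (a b c : ℕ) (E : Fin c → Finset (Fin a × Fin b)), (∀ l, (E l).card ≤ 3) →
      ∀ f : ℕ → ℂ, (∀ (K : Type) [Field K] [Finite K], f (Nat.card K) =
        (cn (Finset.univ : Finset (Fin a ⊕ Fin b)) E K : ℂ)) → HC f)
    (k : ℕ) : ∀ (V : Finset (Fin a ⊕ Fin b)), Vᶜ.card = k →
      ∀ (E : Fin c → Finset (Fin a × Fin b)), (∀ l, (E l).card ≤ 3) →
      ∀ f : ℕ → ℂ, (∀ (K : Type) [Field K] [Finite K], f (Nat.card K) = (cn V E K : ℂ)) → HC f := by
  classical
  induction k with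
  | zero =>
    intro V hV E hE f hf
    rw [Finset.card_eq_zero, Finset.compl_eq_empty_iff] at hV
    subst hV
    exact H a b c E hE f hf
  | succ k ih =>
    intro V hV E hE f hf
    obtain ⟨v, hv⟩ : Vᶜ.Nonempty := by
      rw [← Finset.card_pos, hV]
      exact Nat.succ_pos k
    rw [Finset.mem_compl] at hv
    have hV' : (insert v V)ᶜ.card = k := by
      rw [Finset.compl_insert, Finset.card_erase_of_mem (Finset.mem_compl.2 hv), hV]
      rfl
    obtain ⟨f₁, b₁, h₁⟩ := exists_cn (insert v V) E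
    obtain ⟨g, bg, hg⟩ := exists_cn (insert v V) (del v E)
    have hdel : ∀ l, (del v E l).card ≤ 3 := fun l =>
      (Finset.card_le_card (Finset.filter_subset _ _)).trans (hE l)
    have c₁ := ih (insert v V) hV' E hE f₁ h₁
    have cg := ih (insert v V) hV' (del v E) hdel g hg
    have bf : Bd f := bd_of (fun K _ => cn V E K) hf (a + b) fun K _ _ => cn_le V E K
    have hm1 : ∀ m : ℕ, IsPrimePow m → (m : ℂ) - 1 ≠ 0 := by
      intro m hm h
      have h5 : (m : ℂ) = ((1 : ℕ) : ℂ) := by
        rw [Nat.cast_one]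
        linear_combination h
      have h6 : m = 1 := by exact_mod_cast h5
      exact hm.one_lt.ne' h6
    have hfm : ∀ m, IsPrimePow m → f m = f₁ m + g m / ((m : ℂ) - 1) := by
      intro m hm
      obtain ⟨K, _, _, rfl⟩ := exists_card hm
      rw [hf K, h₁ K, hg K]
      exact cn_step V v hv E K
    have bq : Bd fun m => g m / ((m : ℂ) - 1) := by
      obtain ⟨C, j, h⟩ := bg
      refine ⟨C, j, fun m hm => ?_⟩
      beta_reduce
      rw [norm_div]
      have h2 : (1 : ℝ) ≤ ‖(m : ℂ) - 1‖ := by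
        have h3 : (m : ℂ) - 1 = ((m - 1 : ℕ) : ℂ) := by
          rw [Nat.cast_sub hm.one_lt.le, Nat.cast_one]
        rw [h3, Complex.norm_natCast]
        have := hm.one_lt
        exact_mod_cast (by omega : 1 ≤ m - 1)
      exact (div_le_self (norm_nonneg _) h2).trans (h m hm)
    refine hc_add f₁ (fun m => g m / ((m : ℂ) - 1)) f b₁ bq hfm c₁ ?_
    refine hc_of_sub_one _ g bq (fun m hm => ?_) cg
    rw [mul_div_cancel₀ _ (hm1 m hm)]

/-- **From the torus to all schemes.** -/
theorem all_of_torus (H : ∀ (a b c : ℕ) (E : Fin c → Finset (Fin a × Fin b)),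
      (∀ l, (E l).card ≤ 3) →
      ∀ f : ℕ → ℂ, (∀ (K : Type) [Field K] [Finite K], f (Nat.card K) =
        (cn (Finset.univ : Finset (Fin a ⊕ Fin b)) E K : ℂ)) → HC f) :
    ∀ X : Pool.Agent.Y116.UV.Sch ℤ, Pool.Agent.Y116.UV.FT False X → Co X := by
  have hC : Pool.Agent.Q282.UK.Clo False Co :=
    ⟨bnd_co.iso, bnd_co.total, bnd_co.opened, bnd_co.torus⟩
  refine (Pool.Agent.Q282.UZ.three_iff Pool.Agent.Q282.UZ.short_int hC).mpr fun a b c E hE => ?_
  obtain ⟨f, hf⟩ := t_A6 (Pool.Agent.Q282.UZ.sysS ℤ E) (Pool.Agent.Y116.UV.ft_aff False)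
  obtain ⟨-, hCo⟩ := t_A4 (Pool.Agent.Q282.UZ.sysS ℤ E) f (Pool.Agent.Y116.UV.ft_aff False) hf
  rw [hCo]
  refine hc_sol H (a + b) (∅ : Finset (Fin a ⊕ Fin b)) ?_ E hE f fun K _ _ => ?_
  · rw [Finset.compl_empty, Finset.card_univ, Fintype.card_sum, Fintype.card_fin, Fintype.card_fin]
  · rw [hf K, t_P1 a b c E K]
    refine congrArg _ (Nat.card_congr (Equiv.subtypeEquiv
      (Equiv.sumArrowEquivProdArrow (Fin a) (Fin b) K).symm fun x => ?_))
    refine ⟨fun h => ⟨fun v hv => absurd hv (Finset.notMem_empty v), h⟩, fun h => h.2⟩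

end Pool.Agent.H865.RV
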