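import Pool.Agent.H865.RV.Rl

/-!
# The groups `Δ_E`: homomorphisms to a group, splitting off the commuting pairs
-/

set_option autoImplicit false

open scoped commutatorElement

namespace Pool.Agent.H865.RV

/-- The generators `u, v, x_1, …, x_a, y_1, …, y_b, g_0, …, g_5`. -/
abbrev Gen' (a b : ℕ) : Type := Fin 2 ⊕ ((Fin a ⊕ Fin b) ⊕ Fin 6)

variable {a b c : ℕ}

/-- The commutator of the first two generators. -/
def cc {ι : Type} : FreeGroup (Fin 2 ⊕ ι) :=
  ⁅(FreeGroup.of (Sum.inl 0) : FreeGroup (Fin 2 ⊕ ι)), (FreeGroup.of (Sum.inl 1) : FreeGroup (Fin 2 ⊕ ι))⁆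

/-- The conjugates of the commutator. -/
def cj {ι : Type} (w : FreeGroup (Fin 2 ⊕ ι)) : FreeGroup (Fin 2 ⊕ ι) := w * cc * w⁻¹

/-- The generators `g_k`. -/
def gg (k : Fin 6) : FreeGroup (Gen' a b) := FreeGroup.of (Sum.inr (Sum.inr k))

/-- The lists of the words. -/
def wl (E : Fin c → List (Fin a × Fin b)) : Fin c ⊕ Fin 4 → List (FreeGroup (Gen' a b)) :=
  Sum.elim (fun l => (E l).map fun e => FreeGroup.of (Sum.inr (Sum.inl (Sum.inl e.1))) *
      FreeGroup.of (Sum.inr (Sum.inl (Sum.inr e.2))))
    ![[1, gg 0, gg 1], [1, gg 2, gg 3], [gg 2, gg 5], [gg 0, gg 4, gg 5]]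

/-- The relators. -/
def rels' (E : Fin c → List (Fin a × Fin b)) : Set (FreeGroup (Gen' a b)) :=
  Set.range (fun x : Gen' a b => ⁅(cc : FreeGroup (Gen' a b)), cj (FreeGroup.of x)⁆) ∪
    Set.range fun k => ((wl E k).map cj).prod

/-- The group `Δ_E`. -/
abbrev Del (E : Fin c → List (Fin a × Fin b)) : Type := PresentedGroup (rels' E)

/-- The group with one relator, the commutator of two generators. -/
abbrev Com (a b : ℕ) : Type := PresentedGroup ({cc} : Set (FreeGroup (Gen' a b)))

instance (E : Fin c → List (Fin a × Fin b)) : Group.IsFinitelyPresented (Del E) := by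
  have h : (rels' E).Finite := (Set.finite_range _).union (Set.finite_range _)
  have := h.to_subtype
  infer_instance

instance : Group.IsFinitelyPresented (Com a b) := by
  have := (Set.finite_singleton (cc : FreeGroup (Gen' a b))).to_subtype
  infer_instance

section lift

variable {ι G H : Type} [Group G] [Group H]

lemma lift_cc (s : Fin 2 ⊕ ι → G) :
    FreeGroup.lift s cc = ⁅s (Sum.inl 0), s (Sum.inl 1)⁆ := by
  rw [cc, map_commutatorElement, FreeGroup.lift_apply_of, FreeGroup.lift_apply_of]

lemma lift_cj (s : Fin 2 ⊕ ι → G) (w : FreeGroup (Fin 2 ⊕ ι)) :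
    FreeGroup.lift s (cj w) = FreeGroup.lift s w * FreeGroup.lift s cc * (FreeGroup.lift s w)⁻¹ := by
  rw [cj, map_mul, map_mul, map_inv]

lemma lift_comp' {α : Type} (φ : G →* H) (s : α → G) (w : FreeGroup α) :
    FreeGroup.lift (fun x => φ (s x)) w = φ (FreeGroup.lift s w) := by
  have h : FreeGroup.lift (fun x => φ (s x)) = φ.comp (FreeGroup.lift s) := by
    ext x
    simp
  rw [h]
  rfl

end lift

section cond

variable (E : Fin c → List (Fin a × Fin b)) {G H : Type} [Group G] [Group H]

/-- The relations. -/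
def Cnd (s : Gen' a b → G) : Prop := ∀ r ∈ rels' E, FreeGroup.lift s r = 1

lemma cnd_of_one (s : Gen' a b → G) (h : FreeGroup.lift s cc = 1) : Cnd E s := by
  have h1 : ∀ w, FreeGroup.lift s (cj w) = 1 := fun w => by
    rw [lift_cj, h, mul_one, mul_inv_cancel]
  rintro r (⟨x, rfl⟩ | ⟨k, rfl⟩)
  · beta_reduce
    rw [map_commutatorElement, h, h1, commutatorElement_one_right]
  · beta_reduce
    rw [map_list_prod, List.map_map]
    refine List.prod_eq_one ?_
    intro g hg
    obtain ⟨w, -, rfl⟩ := List.mem_map.1 hg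
    exact h1 w

lemma cnd_map (φ : G →* H) (hφ : Function.Injective φ) (s : Gen' a b → G) :
    Cnd E (fun x => φ (s x)) ↔ Cnd E s := by
  refine forall₂_congr fun r _ => ?_
  rw [lift_comp', map_eq_one_iff φ hφ]

/-- The tuples with the relations and a nontrivial commutator. -/
def TT (G : Type) [Group G] : Type := {s : Gen' a b → G // Cnd E s ∧ FreeGroup.lift s cc ≠ 1}

/-- The homomorphisms from `Δ_E`. -/
lemma card_del [Finite G] : Nat.card (Del E →* G) = Nat.card (Com a b →* G) + Nat.card (TT E G) := by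
  classical
  have h1 : Nat.card (Del E →* G) = Nat.card {s : Gen' a b → G // Cnd E s} :=
    Nat.card_congr (homEquiv (rels' E))
  have h2 : Nat.card (Com a b →* G) = Nat.card {s : Gen' a b → G // FreeGroup.lift s cc = 1} := by
    refine Nat.card_congr ((homEquiv _).trans (Equiv.subtypeEquivRight fun s => ?_))
    simp
  rw [h1, h2]
  unfold TT
  rw [← Nat.card_sum]
  refine Nat.card_congr
    { toFun := fun s => if h : FreeGroup.lift s.1 cc = 1 then Sum.inl ⟨s.1, h⟩ else
        Sum.inr ⟨s.1, s.2, h⟩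
      invFun := Sum.elim (fun s => ⟨s.1, cnd_of_one E s.1 s.2⟩) fun s => ⟨s.1, s.2.1⟩
      left_inv := ?_
      right_inv := ?_ }
  · intro s
    beta_reduce
    split_ifs with h
    · rfl
    · rfl
  · rintro (s | s)
    · exact dif_pos s.2
    · exact dif_neg s.2.2

/-- The product with a commutative group. -/
lemma card_TT_prod {A : Type} [CommGroup A] [Finite A] [Finite G] :
    Nat.card (TT E (A × G)) = Nat.card A ^ (a + b + 8) * Nat.card (TT E G) := by
  have h1 : Nat.card (Gen' a b) = a + b + 8 := by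
    rw [Nat.card_eq_fintype_card, Fintype.card_sum, Fintype.card_sum, Fintype.card_sum,
      Fintype.card_fin, Fintype.card_fin, Fintype.card_fin, Fintype.card_fin]
    ring
  rw [← h1, ← Nat.card_fun, ← Nat.card_prod]
  have hl : ∀ (t : Gen' a b → A) (s : Gen' a b → G) (w : FreeGroup (Gen' a b)),
      FreeGroup.lift (fun x => (t x, s x)) w = (FreeGroup.lift t w, FreeGroup.lift s w) := by
    intro t s w
    have h := DFunLike.congr_fun (show FreeGroup.lift (fun x => (t x, s x)) =
      (FreeGroup.lift t).prod (FreeGroup.lift s) by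
        ext x <;> simp) w
    exact h
  have hA : ∀ t : Gen' a b → A, FreeGroup.lift t cc = 1 := fun t => by
    rw [lift_cc]
    exact commutatorElement_eq_one_iff_mul_comm.2 (mul_comm _ _)
  refine Nat.card_congr
    { toFun := fun s => (fun x => (s.1 x).1, ⟨fun x => (s.1 x).2, ?_, ?_⟩)
      invFun := fun s => ⟨fun x => (s.1 x, s.2.1 x), ?_, ?_⟩
      left_inv := fun s => rfl
      right_inv := fun s => rfl }
  · intro r hr
    have h2 := s.2.1 r hr
    have h3 := hl (fun x => (s.1 x).1) (fun x => (s.1 x).2) r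
    have h4 : (fun x => ((s.1 x).1, (s.1 x).2)) = s.1 := rfl
    rw [h4, h2] at h3
    exact (congrArg Prod.snd h3).symm
  · intro h5
    refine s.2.2 ?_
    have h3 := hl (fun x => (s.1 x).1) (fun x => (s.1 x).2) cc
    have h4 : (fun x => ((s.1 x).1, (s.1 x).2)) = s.1 := rfl
    rw [h4, h5, hA] at h3
    exact h3
  · intro r hr
    rw [hl, s.2.2.1 r hr, cnd_of_one E s.1 (hA _) r hr]
    rfl
  · rw [hl]
    intro h
    exact s.2.2.2 (congrArg Prod.snd h)

/-- Isomorphic groups. -/
lemma card_TT_congr (e : G ≃* H) : Nat.card (TT E G) = Nat.card (TT E H) := by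
  refine Nat.card_congr (Equiv.subtypeEquiv (Equiv.piCongrRight fun _ => e.toEquiv) fun s => ?_)
  refine and_congr (cnd_map E e.toMonoidHom e.injective s).symm ?_
  change _ ↔ FreeGroup.lift (fun x => e.toMonoidHom (s x)) cc ≠ 1
  rw [lift_comp', ne_eq, ne_eq, map_eq_one_iff e.toMonoidHom e.injective]

end cond

end Pool.Agent.H865.RV
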