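import Pool.Agent.H865.RV.G2

/-!
# The groups `Δ_E`: homomorphisms to `AGL_1(K)`
-/

set_option autoImplicit false

open scoped commutatorElement

namespace Pool.Agent.H865.RV

variable {a b c : ℕ} {K : Type} [Field K]

/-- The conditions on the six slopes. -/
def F6 (t : Fin 6 → Kˣ) : Prop :=
  1 + (t 0 : K) + t 1 = 0 ∧ 1 + (t 2 : K) + t 3 = 0 ∧ (t 2 : K) + t 5 = 0 ∧
    (t 0 : K) + t 4 + t 5 = 0

lemma lift_cc_ag {ι : Type} (s : Fin 2 ⊕ ι → Ag K) :
    FreeGroup.lift s cc = Ag.tr (Ag.dd (s (Sum.inl 0)) (s (Sum.inl 1))) := by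
  rw [lift_cc, Ag.comm_eq]

lemma lift_cj_ag {ι : Type} (s : Fin 2 ⊕ ι → Ag K) (w : FreeGroup (Fin 2 ⊕ ι)) :
    FreeGroup.lift s (cj w) =
      Ag.tr (((FreeGroup.lift s w).a : K) * Ag.dd (s (Sum.inl 0)) (s (Sum.inl 1))) := by
  rw [lift_cj, lift_cc_ag, Ag.conj_tr]

lemma lift_prod_ag {ι : Type} (s : Fin 2 ⊕ ι → Ag K) (L : List (FreeGroup (Fin 2 ⊕ ι))) :
    FreeGroup.lift s ((L.map cj).prod) = Ag.tr ((L.map fun w => ((FreeGroup.lift s w).a : K)).sum *
      Ag.dd (s (Sum.inl 0)) (s (Sum.inl 1))) := by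
  rw [map_list_prod, List.map_map]
  have h2 : (FreeGroup.lift s ∘ cj) =
      Ag.tr ∘ fun w => ((FreeGroup.lift s w).a : K) * Ag.dd (s (Sum.inl 0)) (s (Sum.inl 1)) :=
    funext (lift_cj_ag s)
  rw [h2, ← List.map_map, Ag.prod_tr, List.sum_map_mul_right]

lemma cnd_ag (E : Fin c → List (Fin a × Fin b)) (s : Gen' a b → Ag K) :
    (Cnd E s ∧ FreeGroup.lift s cc ≠ 1) ↔ Ag.dd (s (Sum.inl 0)) (s (Sum.inl 1)) ≠ 0 ∧
      Q E (fun v => (s (Sum.inr (Sum.inl v))).a) ∧ F6 (fun k => (s (Sum.inr (Sum.inr k))).a) := by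
  rw [and_comm, lift_cc_ag, ne_eq, Ag.tr_eq_one]
  refine and_congr_right fun hd => ?_
  have h1 : Cnd E s ↔ ∀ k, ((wl E k).map fun w => ((FreeGroup.lift s w).a : K)).sum = 0 := by
    constructor
    · intro h k
      have h2 := h _ (Or.inr ⟨k, rfl⟩)
      beta_reduce at h2
      rw [lift_prod_ag, Ag.tr_eq_one, mul_eq_zero] at h2
      exact h2.resolve_right hd
    · rintro h r (⟨x, rfl⟩ | ⟨k, rfl⟩)
      · beta_reduce
        rw [map_commutatorElement, lift_cj_ag, lift_cc_ag, commutatorElement_eq_one_iff_mul_comm,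
          Ag.tr_mul, Ag.tr_mul, add_comm]
      · beta_reduce
        rw [lift_prod_ag, h k, zero_mul, Ag.tr_zero]
  rw [h1, Sum.forall]
  refine and_congr (forall_congr' fun l => ?_) ?_
  · have h2 : (wl E (Sum.inl l)).map (fun w => ((FreeGroup.lift s w).a : K)) =
        (E l).map fun e => ((s (Sum.inr (Sum.inl (Sum.inl e.1)))).a : K) *
          (s (Sum.inr (Sum.inl (Sum.inr e.2)))).a := by
      change ((E l).map _).map _ = _
      rw [List.map_map]
      refine List.map_congr_left fun e _ => ?_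
      simp only [Function.comp_apply, map_mul, FreeGroup.lift_apply_of, Ag.mul_a, Units.val_mul]
    rw [h2]
  · have h3 : ∀ P : Fin 4 → Prop, (∀ k, P k) ↔ P 0 ∧ P 1 ∧ P 2 ∧ P 3 := by
      intro P
      refine ⟨fun h => ⟨h 0, h 1, h 2, h 3⟩, ?_⟩
      rintro ⟨h0, h1, h2, h3⟩ k
      fin_cases k
      · exact h0
      · exact h1
      · exact h2
      · exact h3
    have w0 : wl E (Sum.inr 0) = [1, gg 0, gg 1] := rfl
    have w1 : wl E (Sum.inr 1) = [1, gg 2, gg 3] := rfl
    have w2 : wl E (Sum.inr 2) = [gg 2, gg 5] := rfl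
    have w3 : wl E (Sum.inr 3) = [gg 0, gg 4, gg 5] := rfl
    rw [h3, w0, w1, w2, w3]
    unfold F6 gg
    simp only [List.map_cons, List.map_nil, List.sum_cons, List.sum_nil, map_one, Ag.one_a,
      Units.val_one, FreeGroup.lift_apply_of, add_zero, add_assoc]

variable (K)

lemma card_F6 [Finite K] : (Nat.card {t : Fin 6 → Kˣ // F6 t} : ℂ) =
    ((Nat.card K : ℂ) - 2) * ((Nat.card K : ℂ) - 3) := by
  classical
  have := Fintype.ofFinite K
  let S : Finset K := (Finset.univ.erase 0).erase (-1)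
  have hS : ∀ x : K, x ∈ S ↔ x ≠ -1 ∧ x ≠ 0 := fun x => by
    simp [S]
  have hc : S.card + 2 = Nat.card K := by
    have h1 : (-1 : K) ∈ (Finset.univ.erase (0 : K)) := by simp
    have h2 := Finset.card_erase_of_mem h1
    have h3 := Finset.card_erase_of_mem (Finset.mem_univ (0 : K))
    have h4 : 2 ≤ Fintype.card K := Fintype.one_lt_card
    change ((Finset.univ.erase (0 : K)).erase (-1)).card + 2 = Nat.card K
    rw [h2, h3, Finset.card_univ, Nat.card_eq_fintype_card]
    omega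
  have e : {t : Fin 6 → Kˣ // F6 t} ≃ S.offDiag :=
    { toFun := fun t => ⟨((t.1 0 : K), (t.1 2 : K)), by
        obtain ⟨t, h1, h2, h3, h4⟩ := t
        rw [Finset.mem_offDiag, hS, hS]
        refine ⟨⟨fun h => ?_, (t 0).ne_zero⟩, ⟨fun h => ?_, (t 2).ne_zero⟩, fun h => ?_⟩
        · refine (t 1).ne_zero ?_
          change (t 0 : K) = -1 at h
          linear_combination h1 - h
        · refine (t 3).ne_zero ?_
          change (t 2 : K) = -1 at h
          linear_combination h2 - h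
        · refine (t 4).ne_zero ?_
          change (t 0 : K) = t 2 at h
          linear_combination h4 - h3 - h⟩
      invFun := fun p => ⟨
        have hp := Finset.mem_offDiag.1 p.2
        have h1 := (hS _).1 hp.1
        have h2 := (hS _).1 hp.2.1
        ![Units.mk0 p.1.1 h1.2, Units.mk0 (-1 - p.1.1) (fun h => h1.1 (by linear_combination -h)),
          Units.mk0 p.1.2 h2.2, Units.mk0 (-1 - p.1.2) (fun h => h2.1 (by linear_combination -h)),
          Units.mk0 (p.1.2 - p.1.1) (fun h => hp.2.2 (by linear_combination -h)),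
          Units.mk0 (-p.1.2) (neg_ne_zero.2 h2.2)], by
        refine ⟨?_, ?_, ?_, ?_⟩
        · change 1 + p.1.1 + (-1 - p.1.1) = 0
          ring
        · change 1 + p.1.2 + (-1 - p.1.2) = 0
          ring
        · change p.1.2 + (-p.1.2) = 0
          ring
        · change p.1.1 + (p.1.2 - p.1.1) + (-p.1.2) = 0
          ring⟩
      left_inv := by
        rintro ⟨t, h1, h2, h3, h4⟩
        refine Subtype.ext (funext fun k => Units.ext ?_)
        fin_cases k
        · rfl
        · change -1 - (t 0 : K) = t 1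
          linear_combination -h1
        · rfl
        · change -1 - (t 2 : K) = t 3
          linear_combination -h2
        · change (t 2 : K) - t 0 = t 4
          linear_combination h3 - h4
        · change -(t 2 : K) = t 5
          linear_combination -h3
      right_inv := fun p => rfl }
  rw [Nat.card_congr e, Nat.card_eq_fintype_card, Fintype.card_coe, Finset.offDiag_card,
    Nat.cast_sub (Nat.le_mul_self _), ← hc]
  push_cast
  ring

/-- The tuples over `AGL_1(K)`. -/
theorem card_TT_ag [Finite K] (E : Fin c → List (Fin a × Fin b)) :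
    (Nat.card (TT E (Ag K)) : ℂ) = (Nat.card K : ℂ) ^ (a + b + 8) * (((Nat.card K : ℂ) - 1) *
      (((Nat.card K : ℂ) - 2) * (((Nat.card K : ℂ) - 2) * (((Nat.card K : ℂ) - 3) *
        (Nat.card {s : Fin a ⊕ Fin b → Kˣ // Q E s} : ℂ))))) := by
  classical
  have h0 : Nat.card (TT E (Ag K)) = Nat.card ({g : Ag K × Ag K // ¬ Ag.dd g.1 g.2 = 0} ×
      (({s : Fin a ⊕ Fin b → Kˣ // Q E s} × {t : Fin 6 → Kˣ // F6 t}) ×
        ((Fin a ⊕ Fin b) ⊕ Fin 6 → K))) := by
    refine Nat.card_congr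
      { toFun := fun s => (⟨(s.1 (Sum.inl 0), s.1 (Sum.inl 1)), ((cnd_ag E s.1).1 s.2).1⟩,
          (⟨_, ((cnd_ag E s.1).1 s.2).2.1⟩, ⟨_, ((cnd_ag E s.1).1 s.2).2.2⟩),
          fun x => (s.1 (Sum.inr x)).b)
        invFun := fun z => ⟨Sum.elim ![z.1.1.1, z.1.1.2]
          fun x => ⟨Sum.elim z.2.1.1.1 z.2.1.2.1 x, z.2.2 x⟩, (cnd_ag E _).2
            ⟨z.1.2, z.2.1.1.2, z.2.1.2.2⟩⟩
        left_inv := ?_
        right_inv := ?_ }
    · intro s
      refine Subtype.ext (funext fun x => ?_)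
      rcases x with x | x | x
      · fin_cases x <;> rfl
      · rfl
      · rfl
    · intro z
      rfl
  have h4 : Nat.card ((Fin a ⊕ Fin b) ⊕ Fin 6 → K) = Nat.card K ^ (a + b + 6) := by
    rw [Nat.card_fun, Nat.card_eq_fintype_card (α := (Fin a ⊕ Fin b) ⊕ Fin 6), Fintype.card_sum,
      Fintype.card_sum, Fintype.card_fin, Fintype.card_fin, Fintype.card_fin]
  rw [h0, Nat.card_prod, Nat.card_prod, Nat.card_prod, h4]
  push_cast
  rw [card_F6, card_noncomm]
  ring

end Pool.Agent.H865.RV
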