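import Pool.Agent.H865.RV.G3

/-!
# The group `GL_2(K)`
-/

set_option autoImplicit false

open scoped commutatorElement

namespace Pool.Agent.H865.RV

namespace Gl

variable {K : Type} [Field K]

/-- The group `GL_2(K)`. -/
abbrev G (K : Type) [Field K] : Type := GL (Fin 2) K

lemma mul_00 (g h : G K) : (g * h).1 0 0 = g.1 0 0 * h.1 0 0 + g.1 0 1 * h.1 1 0 := by
  rw [Units.val_mul, Matrix.mul_apply, Fin.sum_univ_two]

lemma mul_01 (g h : G K) : (g * h).1 0 1 = g.1 0 0 * h.1 0 1 + g.1 0 1 * h.1 1 1 := by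
  rw [Units.val_mul, Matrix.mul_apply, Fin.sum_univ_two]

lemma mul_10 (g h : G K) : (g * h).1 1 0 = g.1 1 0 * h.1 0 0 + g.1 1 1 * h.1 1 0 := by
  rw [Units.val_mul, Matrix.mul_apply, Fin.sum_univ_two]

lemma mul_11 (g h : G K) : (g * h).1 1 1 = g.1 1 0 * h.1 0 1 + g.1 1 1 * h.1 1 1 := by
  rw [Units.val_mul, Matrix.mul_apply, Fin.sum_univ_two]

lemma ext' {g h : G K} (h00 : g.1 0 0 = h.1 0 0) (h01 : g.1 0 1 = h.1 0 1)
    (h10 : g.1 1 0 = h.1 1 0) (h11 : g.1 1 1 = h.1 1 1) : g = h := by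
  refine Units.ext (Matrix.ext fun i j => ?_)
  fin_cases i <;> fin_cases j
  · exact h00
  · exact h01
  · exact h10
  · exact h11

lemma one_00 : (1 : G K).1 0 0 = 1 := rfl
lemma one_01 : (1 : G K).1 0 1 = 0 := rfl
lemma one_10 : (1 : G K).1 1 0 = 0 := rfl
lemma one_11 : (1 : G K).1 1 1 = 1 := rfl

lemma det_eq (g : G K) : g.1.det = g.1 0 0 * g.1 1 1 - g.1 0 1 * g.1 1 0 := Matrix.det_fin_two _

lemma det_ne (g : G K) : g.1 0 0 * g.1 1 1 - g.1 0 1 * g.1 1 0 ≠ 0 := by
  rw [← det_eq]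
  exact (Matrix.isUnit_iff_isUnit_det _).1 g.isUnit |>.ne_zero

/-- The matrix with the given entries. -/
noncomputable def mk (p r t w : K) (h : p * w - r * t ≠ 0) : G K :=
  Matrix.GeneralLinearGroup.mkOfDetNeZero !![p, r; t, w] (by rwa [Matrix.det_fin_two_of])

lemma mk_00 {p r t w : K} (h : p * w - r * t ≠ 0) : (mk p r t w h).1 0 0 = p := rfl
lemma mk_01 {p r t w : K} (h : p * w - r * t ≠ 0) : (mk p r t w h).1 0 1 = r := rfl
lemma mk_10 {p r t w : K} (h : p * w - r * t ≠ 0) : (mk p r t w h).1 1 0 = t := rfl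
lemma mk_11 {p r t w : K} (h : p * w - r * t ≠ 0) : (mk p r t w h).1 1 1 = w := rfl

/-- The affine group times the centre as upper triangular matrices. -/
noncomputable def jj : Kˣ × Ag K →* G K where
  toFun x := mk (x.1 * x.2.a) (x.1 * x.2.b) 0 x.1 (by
    rw [mul_zero, sub_zero]
    exact mul_ne_zero (mul_ne_zero x.1.ne_zero x.2.a.ne_zero) x.1.ne_zero)
  map_one' := by
    refine ext' ?_ ?_ ?_ ?_
    · rw [mk_00, one_00]
      simp
    · rw [mk_01, one_01]
      simp
    · rw [mk_10, one_10]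
    · rw [mk_11, one_11]
      simp
  map_mul' x y := by
    refine ext' ?_ ?_ ?_ ?_
    · rw [mul_00]
      simp only [mk_00, mk_01, mk_10, mk_11, Prod.fst_mul, Prod.snd_mul, Ag.mul_a, Ag.mul_b,
        Units.val_mul]
      ring
    · rw [mul_01]
      simp only [mk_00, mk_01, mk_10, mk_11, Prod.fst_mul, Prod.snd_mul, Ag.mul_a, Ag.mul_b,
        Units.val_mul]
      ring
    · rw [mul_10]
      simp only [mk_00, mk_01, mk_10, mk_11, Prod.fst_mul, Prod.snd_mul, Ag.mul_a, Ag.mul_b,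
        Units.val_mul]
      ring
    · rw [mul_11]
      simp only [mk_00, mk_01, mk_10, mk_11, Prod.fst_mul, Prod.snd_mul, Ag.mul_a, Ag.mul_b,
        Units.val_mul]
      ring

lemma jj_00 (x : Kˣ × Ag K) : (jj x).1 0 0 = x.1 * x.2.a := rfl
lemma jj_01 (x : Kˣ × Ag K) : (jj x).1 0 1 = x.1 * x.2.b := rfl
lemma jj_10 (x : Kˣ × Ag K) : (jj x).1 1 0 = 0 := rfl
lemma jj_11 (x : Kˣ × Ag K) : (jj x).1 1 1 = x.1 := rfl

lemma jj_inj : Function.Injective (jj (K := K)) := by
  intro x y h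
  have h11 : (x.1 : K) = y.1 := by
    rw [← jj_11, ← jj_11, h]
  have h1 : x.1 = y.1 := Units.ext h11
  have h00 : (x.1 : K) * x.2.a = y.1 * y.2.a := by
    rw [← jj_00, ← jj_00, h]
  have h01 : (x.1 : K) * x.2.b = y.1 * y.2.b := by
    rw [← jj_01, ← jj_01, h]
  rw [← h11] at h00 h01
  exact Prod.ext h1 (Ag.ext (Units.ext (mul_left_cancel₀ x.1.ne_zero h00))
    (mul_left_cancel₀ x.1.ne_zero h01))

/-- The upper triangular matrices. -/
noncomputable def B (K : Type) [Field K] : Subgroup (G K) := (jj (K := K)).range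

lemma mem_B {g : G K} : g ∈ B K ↔ g.1 1 0 = 0 := by
  constructor
  · rintro ⟨x, rfl⟩
    exact jj_10 x
  · intro h
    have h1 := det_ne g
    rw [h, mul_zero, sub_zero] at h1
    have h00 : g.1 0 0 ≠ 0 := left_ne_zero_of_mul h1
    have h11 : g.1 1 1 ≠ 0 := right_ne_zero_of_mul h1
    refine ⟨(Units.mk0 _ h11, ⟨Units.mk0 (g.1 0 0 / g.1 1 1) (div_ne_zero h00 h11),
      g.1 0 1 / g.1 1 1⟩), ext' ?_ ?_ ?_ ?_⟩
    · rw [jj_00]
      exact mul_div_cancel₀ _ h11
    · rw [jj_01]
      exact mul_div_cancel₀ _ h11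
    · rw [jj_10, h]
    · rw [jj_11]
      rfl

/-- A matrix that conjugates a nontrivial unipotent (up to a scalar) upper triangular matrix to an upper
triangular matrix is upper triangular. -/
lemma upper_of_conj {x y z : G K} (hx : x.1 1 0 = 0) (hd : x.1 0 0 = x.1 1 1) (hn : x.1 0 1 ≠ 0)
    (hy : y.1 1 0 = 0) (h : z * y = x * z) : z.1 1 0 = 0 := by
  by_contra hz
  have h1 : (z * y).1 1 0 = (x * z).1 1 0 := by rw [h]
  have h2 : (z * y).1 0 0 = (x * z).1 0 0 := by rw [h]
  rw [mul_10, mul_10, hy, hx] at h1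
  rw [mul_00, mul_00, hy] at h2
  have h3 : z.1 1 0 * (y.1 0 0 - x.1 1 1) = 0 := by linear_combination h1
  have h4 : y.1 0 0 = x.1 1 1 := sub_eq_zero.1 ((mul_eq_zero.1 h3).resolve_left hz)
  have h5 : x.1 0 1 * z.1 1 0 = 0 := by
    rw [h4, ← hd] at h2
    linear_combination -h2
  exact (mul_ne_zero hn hz) h5

/-- If `c` is (a scalar times) a nontrivial unipotent upper triangular matrix and commutes with
`x c x⁻¹` then `x` is upper triangular. -/
lemma upper_of_comm {c x : G K} (hx : c.1 1 0 = 0) (hd : c.1 0 0 = c.1 1 1) (hn : c.1 0 1 ≠ 0)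
    (h : c * (x * c * x⁻¹) = x * c * x⁻¹ * c) : x.1 1 0 = 0 := by
  obtain ⟨y, hy⟩ : ∃ y, y = x * c * x⁻¹ := ⟨_, rfl⟩
  rw [← hy] at h
  have h0 : x * c = y * x := by rw [hy, inv_mul_cancel_right]
  have h00 : (c * y).1 0 0 = (y * c).1 0 0 := by rw [h]
  have h01 : (c * y).1 0 1 = (y * c).1 0 1 := by rw [h]
  rw [mul_00, mul_00, hx] at h00
  rw [mul_01, mul_01] at h01
  have h1 : c.1 0 1 * y.1 1 0 = 0 := by linear_combination h00
  have h2 : y.1 1 0 = 0 := (mul_eq_zero.1 h1).resolve_left hn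
  have h3 : c.1 0 1 * (y.1 1 1 - y.1 0 0) = 0 := by
    linear_combination h01 + y.1 0 1 * (- hd)
  have h4 : y.1 1 1 = y.1 0 0 := sub_eq_zero.1 ((mul_eq_zero.1 h3).resolve_left hn)
  by_contra hz
  have h5 : (x * c).1 1 0 = (y * x).1 1 0 := by rw [h0]
  have h6 : (x * c).1 1 1 = (y * x).1 1 1 := by rw [h0]
  rw [mul_10, mul_10, hx, h2] at h5
  rw [mul_11, mul_11, h2] at h6
  have h7 : x.1 1 0 * (c.1 0 0 - y.1 1 1) = 0 := by linear_combination h5
  have h8 : c.1 0 0 = y.1 1 1 := sub_eq_zero.1 ((mul_eq_zero.1 h7).resolve_left hz)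
  have h9 : x.1 1 0 * c.1 0 1 = 0 := by
    linear_combination h6 - x.1 1 1 * (h8 - hd) 
  exact (mul_ne_zero hz hn) h9

/-- The semisimple case. -/
lemma eq_or_inv {c y : G K} (hc : c.1 0 0 * c.1 1 1 - c.1 0 1 * c.1 1 0 = 1)
    (hy : y.1 0 0 * y.1 1 1 - y.1 0 1 * y.1 1 0 = 1) (ht : y.1 0 0 + y.1 1 1 = c.1 0 0 + c.1 1 1)
    (hΔ : (c.1 0 0 - c.1 1 1) ^ 2 + 4 * c.1 0 1 * c.1 1 0 ≠ 0) (h : c * y = y * c) :
    y = c ∨ y * c = 1 := by
  have h00 : (c * y).1 0 0 = (y * c).1 0 0 := by rw [h]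
  have h01 : (c * y).1 0 1 = (y * c).1 0 1 := by rw [h]
  have h10 : (c * y).1 1 0 = (y * c).1 1 0 := by rw [h]
  rw [mul_00, mul_00] at h00
  rw [mul_01, mul_01] at h01
  rw [mul_10, mul_10] at h10
  have key : y.1 0 0 = c.1 0 0 ∧ y.1 0 1 = c.1 0 1 ∧ y.1 1 0 = c.1 1 0 ∧ y.1 1 1 = c.1 1 1 ∨
      y.1 0 0 = c.1 1 1 ∧ y.1 0 1 = - c.1 0 1 ∧ y.1 1 0 = - c.1 1 0 ∧ y.1 1 1 = c.1 0 0 := by
    generalize y.1 0 0 = y0 at *
    generalize y.1 0 1 = y1 at *
    generalize y.1 1 0 = y2 at *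
    generalize y.1 1 1 = y3 at *
    generalize c.1 0 0 = p at *
    generalize c.1 0 1 = r at *
    generalize c.1 1 0 = t at *
    generalize c.1 1 1 = w at *
    -- the vectors `(y0 - y3, y1, y2)` and `(p - w, r, t)` are proportional
    obtain ⟨β, e1, e2, e3⟩ : ∃ β : K, y0 - y3 = β * (p - w) ∧ y1 = β * r ∧ y2 = β * t := by
      by_cases hr : r = 0
      · by_cases hpw : p - w = 0
        · exfalso
          apply hΔ
          rw [hpw, hr]
          ring
        · refine ⟨(y0 - y3) / (p - w), ?_, ?_, ?_⟩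
          · rw [div_mul_cancel₀ _ hpw]
          · rw [hr, mul_zero]
            have : (p - w) * y1 = 0 := by
              rw [hr] at h01
              linear_combination h01
            exact (mul_eq_zero.1 this).resolve_left hpw
          · rw [div_mul_eq_mul_div, eq_div_iff hpw]
            linear_combination -h10
      · refine ⟨y1 / r, ?_, ?_, ?_⟩
        · rw [div_mul_eq_mul_div, eq_div_iff hr]
          linear_combination -h01
        · rw [div_mul_cancel₀ _ hr]
        · rw [div_mul_eq_mul_div, eq_div_iff hr]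
          linear_combination h00
    have hA : 2 * (y0 - p) = (β - 1) * (p - w) := by linear_combination e1 + ht
    have h3 : y3 = w - (y0 - p) := by linear_combination ht
    have hB : (y0 - p) * ((y0 - p) + (p - w)) + (β - 1) * (β + 1) * (r * t) = 0 := by
      rw [h3, e2, e3] at hy
      linear_combination hc - hy
    have hΔ2 : (β - 1) * (β + 1) * ((p - w) ^ 2 + 4 * r * t) = 0 := by
      linear_combination 4 * hB - (β + 1) * (p - w) * hA - 2 * (y0 - p) * hA
    have hβ : (β - 1) * (β + 1) = 0 := (mul_eq_zero.1 hΔ2).resolve_right hΔ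
    rw [hβ, zero_mul, add_zero] at hB
    have two : p - w ≠ 0 → 2 * (p - w) = 0 → ∀ z : K, z = -z := by
      intro h1 h2 z
      have h4 : (2 : K) = 0 := (mul_eq_zero.1 h2).resolve_right h1
      linear_combination z * h4
    rcases mul_eq_zero.1 hβ with h5 | h5
    · have e4 : β = 1 := sub_eq_zero.1 h5
      rw [e4, one_mul] at e2 e3
      rw [e4, sub_self, zero_mul] at hA
      rcases mul_eq_zero.1 hB with h6 | h6
      · left
        refine ⟨sub_eq_zero.1 h6, e2, e3, ?_⟩
        rw [h3, h6, sub_zero]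
      · by_cases h7 : p - w = 0
        · left
          refine ⟨?_, e2, e3, ?_⟩
          · linear_combination h6 - h7
          · linear_combination h3 - h6 + h7
        · right
          have h8 := two h7 (by linear_combination 2 * h6 - hA)
          refine ⟨by linear_combination h6, ?_, ?_, by linear_combination h3 - h6⟩
          · rw [e2]
            exact h8 r
          · rw [e3]
            exact h8 t
    · have e4 : β = -1 := by linear_combination h5
      rw [e4, neg_one_mul] at e2 e3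
      rw [e4] at hA
      rcases mul_eq_zero.1 hB with h6 | h6
      · by_cases h7 : p - w = 0
        · right
          refine ⟨by linear_combination h6 + h7, e2, e3, by linear_combination h3 - h6 - h7⟩
        · left
          have h8 := two h7 (by linear_combination hA - 2 * h6)
          refine ⟨by linear_combination h6, ?_, ?_, by linear_combination h3 - h6⟩
          · rw [e2]
            exact (h8 r).symm
          · rw [e3]
            exact (h8 t).symm
      · right
        refine ⟨by linear_combination h6, e2, e3, by linear_combination h3 - h6⟩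
  rcases key with ⟨k0, k1, k2, k3⟩ | ⟨k0, k1, k2, k3⟩
  · exact Or.inl (ext' k0 k1 k2 k3)
  · right
    refine ext' ?_ ?_ ?_ ?_
    · rw [mul_00, one_00, k0, k1]
      linear_combination hc
    · rw [mul_01, one_01, k0, k1]
      ring
    · rw [mul_10, one_10, k2, k3]
      ring
    · rw [mul_11, one_11, k2, k3]
      linear_combination hc

end Gl

end Pool.Agent.H865.RV
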