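import Pool.Agent.H865.RV.G4

/-!
# The groups `Δ_E`: homomorphisms to `GL_2(K)`
-/

set_option autoImplicit false

open scoped commutatorElement

namespace Pool.Agent.H865.RV

namespace Gl

variable {a b c : ℕ} {K : Type} [Field K]

lemma det_conj_eq (x z : G K) : (x * z * x⁻¹).1 0 0 * (x * z * x⁻¹).1 1 1 -
    (x * z * x⁻¹).1 0 1 * (x * z * x⁻¹).1 1 0 = z.1 0 0 * z.1 1 1 - z.1 0 1 * z.1 1 0 := by
  rw [← det_eq, ← det_eq]
  exact Matrix.det_units_conj x z.1

lemma tr_conj_eq (x z : G K) : (x * z * x⁻¹).1 0 0 + (x * z * x⁻¹).1 1 1 = z.1 0 0 + z.1 1 1 := by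
  rw [← Matrix.trace_fin_two, ← Matrix.trace_fin_two]
  exact Matrix.trace_units_conj x z.1

lemma det_comm (x y : G K) : (⁅x, y⁆).1 0 0 * (⁅x, y⁆).1 1 1 - (⁅x, y⁆).1 0 1 * (⁅x, y⁆).1 1 0 = 1 := by
  rw [← det_eq]
  have h : Matrix.GeneralLinearGroup.det ⁅x, y⁆ = 1 := by
    rw [map_commutatorElement]
    exact commutatorElement_eq_one_iff_mul_comm.2 (mul_comm _ _)
  exact congrArg Units.val h

/-- The conjugate of the commutator by the value at `x`. -/
lemma lift_cj_of {ι Γ : Type} [Group Γ] (s : Fin 2 ⊕ ι → Γ) (x : Fin 2 ⊕ ι) :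
    FreeGroup.lift s (cj (FreeGroup.of x)) = s x * FreeGroup.lift s cc * (s x)⁻¹ := by
  rw [lift_cj, FreeGroup.lift_apply_of]

/-- A normal form of the commutator. -/
lemma exists_normal {z : G K} (hz : z.1 0 0 * z.1 1 1 - z.1 0 1 * z.1 1 0 = 1)
    (hΔ : (z.1 0 0 - z.1 1 1) ^ 2 + 4 * z.1 0 1 * z.1 1 0 = 0)
    (hn : ¬ (z.1 0 1 = 0 ∧ z.1 1 0 = 0)) :
    ∃ h w : G K, z * h = h * w ∧ w.1 1 0 = 0 ∧ w.1 0 0 = w.1 1 1 ∧ w.1 0 1 ≠ 0 := by
  by_cases hr : z.1 0 1 = 0
  · have ht : z.1 1 0 ≠ 0 := fun h => hn ⟨hr, h⟩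
    have h1 : z.1 0 0 = z.1 1 1 := by
      rw [hr] at hΔ
      have h2 : (z.1 0 0 - z.1 1 1) ^ 2 = 0 := by linear_combination hΔ
      exact sub_eq_zero.1 (pow_eq_zero_iff (two_ne_zero)|>.1 h2)
    rw [hr, zero_mul, sub_zero, ← h1] at hz
    refine ⟨mk 0 1 1 0 (by simp), mk (z.1 0 0) (z.1 1 0) 0 (z.1 0 0) (by
      rw [hz, mul_zero, sub_zero]
      exact one_ne_zero), ext' ?_ ?_ ?_ ?_, rfl, rfl, ht⟩
    · rw [mul_00, mul_00]
      simp only [mk_00, mk_01, mk_10]
      rw [hr]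
      ring
    · rw [mul_01, mul_01]
      simp only [mk_00, mk_01, mk_11]
      ring
    · rw [mul_10, mul_10]
      simp only [mk_00, mk_10, mk_11]
      rw [← h1]
      ring
    · rw [mul_11, mul_11]
      simp only [mk_01, mk_10, mk_11]
      ring
  · -- the eigenvalue
    obtain ⟨l, hl1, hl2⟩ : ∃ l : K, z.1 0 0 + z.1 1 1 = 2 * l ∧ l * l = 1 := by
      have h1 : (z.1 0 0 + z.1 1 1 - 2) * (z.1 0 0 + z.1 1 1 + 2) = 0 := by
        linear_combination hΔ + 4 * hz
      rcases mul_eq_zero.1 h1 with h2 | h2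
      · exact ⟨1, by linear_combination h2, by ring⟩
      · exact ⟨-1, by linear_combination h2, by ring⟩
    have hd : (z.1 0 0 - l) ^ 2 + z.1 0 1 * z.1 1 0 = 0 := by
      linear_combination (z.1 0 0) * hl1 - hz + hl2
    refine ⟨mk (z.1 0 1) 0 (-(z.1 0 0 - l)) 1 (by
      rw [mul_one, zero_mul, sub_zero]
      exact hr), mk l 1 0 l (by
      rw [hl2, mul_zero, sub_zero]
      exact one_ne_zero), ext' ?_ ?_ ?_ ?_, rfl, rfl, one_ne_zero⟩
    · rw [mul_00, mul_00]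
      simp only [mk_00, mk_01, mk_10]
      ring
    · rw [mul_01, mul_01]
      simp only [mk_00, mk_01, mk_11]
      ring
    · rw [mul_10, mul_10]
      simp only [mk_00, mk_10, mk_11]
      linear_combination hd - (z.1 0 0 - l) * hl1
    · rw [mul_11, mul_11]
      simp only [mk_01, mk_10, mk_11]
      linear_combination hl1

/-- **The tuples are conjugate to upper triangular tuples.** -/
theorem exists_upper (E : Fin c → List (Fin a × Fin b)) (s : Gen' a b → G K) (hs : Cnd E s)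
    (hc : FreeGroup.lift s cc ≠ 1) : ∃ h : G K, ∀ x, h⁻¹ * s x * h ∈ B K := by
  obtain ⟨z, hz⟩ : ∃ z, z = FreeGroup.lift s cc := ⟨_, rfl⟩
  have hdet : z.1 0 0 * z.1 1 1 - z.1 0 1 * z.1 1 0 = 1 := by
    rw [hz, lift_cc]
    exact det_comm _ _
  rw [← hz] at hc
  -- the relations
  have r1 : ∀ x, z * (s x * z * (s x)⁻¹) = s x * z * (s x)⁻¹ * z := fun x => by
    have h1 := hs _ (Or.inl ⟨x, rfl⟩)
    beta_reduce at h1
    rw [map_commutatorElement, commutatorElement_eq_one_iff_mul_comm, lift_cj_of, ← hz] at h1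
    exact h1
  have r2 : ∀ k : Fin 4, FreeGroup.lift s ((wl E (Sum.inr k)).map cj).prod = 1 := fun k =>
    hs _ (Or.inr ⟨Sum.inr k, rfl⟩)
  let y : Fin 6 → G K := fun k => s (Sum.inr (Sum.inr k)) * z * (s (Sum.inr (Sum.inr k)))⁻¹
  have hy : ∀ k, FreeGroup.lift s (cj (gg k)) = y k := fun k => by
    rw [gg, lift_cj_of, ← hz]
  have h1 : FreeGroup.lift s (cj 1) = z := by
    rw [lift_cj, map_one, inv_one, mul_one, one_mul, hz]
  have f0 : z * (y 0 * y 1) = 1 := by
    have h := r2 0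
    have w0 : wl E (Sum.inr 0) = [1, gg 0, gg 1] := rfl
    rw [w0] at h
    simpa only [List.map_cons, List.map_nil, List.prod_cons, List.prod_nil, map_mul, map_one, h1, hy,
      mul_one] using h
  have f1 : z * (y 2 * y 3) = 1 := by
    have h := r2 1
    have w0 : wl E (Sum.inr 1) = [1, gg 2, gg 3] := rfl
    rw [w0] at h
    simpa only [List.map_cons, List.map_nil, List.prod_cons, List.prod_nil, map_mul, map_one, h1, hy,
      mul_one] using h
  have f2 : y 2 * y 5 = 1 := by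
    have h := r2 2
    have w0 : wl E (Sum.inr 2) = [gg 2, gg 5] := rfl
    rw [w0] at h
    simpa only [List.map_cons, List.map_nil, List.prod_cons, List.prod_nil, map_mul, map_one, h1, hy,
      mul_one] using h
  have f3 : y 0 * (y 4 * y 5) = 1 := by
    have h := r2 3
    have w0 : wl E (Sum.inr 3) = [gg 0, gg 4, gg 5] := rfl
    rw [w0] at h
    simpa only [List.map_cons, List.map_nil, List.prod_cons, List.prod_nil, map_mul, map_one, h1, hy,
      mul_one] using h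
  have hne : ∀ k, y k ≠ 1 := fun k h => hc (by
    change s (Sum.inr (Sum.inr k)) * z * (s (Sum.inr (Sum.inr k)))⁻¹ = 1 at h
    exact conj_eq_one_iff.1 h)
  -- the discriminant is zero
  have hΔ : (z.1 0 0 - z.1 1 1) ^ 2 + 4 * z.1 0 1 * z.1 1 0 = 0 := by
    by_contra hΔ
    have k1 : ∀ k, y k = z ∨ y k * z = 1 := fun k =>
      eq_or_inv hdet ((det_conj_eq _ _).trans hdet) (tr_conj_eq _ _) hΔ (r1 _)
    have k2 : ∀ k, z * y k = y k * z := fun k => r1 _
    have e0 : y 0 = z := (k1 0).resolve_right fun h => hne 1 (by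
      rw [← mul_assoc, k2 0, h, one_mul] at f0
      exact f0)
    have e2 : y 2 = z := (k1 2).resolve_right fun h => hne 3 (by
      rw [← mul_assoc, k2 2, h, one_mul] at f1
      exact f1)
    have e5 : z * y 5 = 1 := by rw [← e2, f2]
    refine hne 4 ?_
    rw [e0] at f3
    have e6 : y 5 = z⁻¹ := (mul_eq_one_iff_eq_inv'.1 e5)
    rw [e6, ← mul_assoc, k2 4, mul_assoc, mul_inv_cancel, mul_one] at f3
    exact f3
  -- the commutator is not a scalar
  have hn : ¬ (z.1 0 1 = 0 ∧ z.1 1 0 = 0) := by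
    rintro ⟨h01, h10⟩
    have h2 : z.1 0 0 = z.1 1 1 := by
      rw [h01] at hΔ
      have h2 : (z.1 0 0 - z.1 1 1) ^ 2 = 0 := by linear_combination hΔ
      exact sub_eq_zero.1 (pow_eq_zero_iff (two_ne_zero)|>.1 h2)
    have h3 : ∀ x : G K, x * z = z * x := fun x => by
      refine ext' ?_ ?_ ?_ ?_
      · rw [mul_00, mul_00, h01, h10]
        ring
      · rw [mul_01, mul_01, h01, h2]
        ring
      · rw [mul_10, mul_10, h10, h2]
        ring
      · rw [mul_11, mul_11, h01, h10]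
        ring
    have h4 : ∀ k, y k = z := fun k => by
      change s (Sum.inr (Sum.inr k)) * z * (s (Sum.inr (Sum.inr k)))⁻¹ = z
      rw [h3, mul_inv_cancel_right]
    rw [h4, h4] at f0 f2
    rw [f2, mul_one] at f0
    exact hc f0
  obtain ⟨h, w, hw, w10, wd, w01⟩ := exists_normal hdet hΔ hn
  have hw' : w = h⁻¹ * z * h := by
    rw [mul_assoc, hw, inv_mul_cancel_left]
  refine ⟨h, fun x => mem_B.2 (upper_of_comm w10 wd w01 ?_)⟩
  have h5 := congrArg (fun g => h⁻¹ * g * h) (r1 x)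
  beta_reduce at h5
  rw [hw']
  calc h⁻¹ * z * h * (h⁻¹ * s x * h * (h⁻¹ * z * h) * (h⁻¹ * s x * h)⁻¹) =
      h⁻¹ * (z * (s x * z * (s x)⁻¹)) * h := by group
    _ = h⁻¹ * (s x * z * (s x)⁻¹ * z) * h := h5
    _ = h⁻¹ * s x * h * (h⁻¹ * z * h) * (h⁻¹ * s x * h)⁻¹ * (h⁻¹ * z * h) := by group

end Gl

end Pool.Agent.H865.RV
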