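import Pool.Agent.H865.RV.G5

/-!
# The groups `Δ_E`: the number of the homomorphisms to `GL_2(K)`
-/

set_option autoImplicit false

open scoped commutatorElement

namespace Pool.Agent.H865.RV

namespace Gl

variable {a b c : ℕ} {K : Type} [Field K] (E : Fin c → List (Fin a × Fin b))

/-- Conjugation of the tuples. -/
def cjT {Γ : Type} [Group Γ] (h : Γ) (s : TT E Γ) : TT E Γ :=
  ⟨fun x => MulAut.conj h (s.1 x), (cnd_map E (MulAut.conj h).toMonoidHom (MulAut.conj h).injective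
    s.1).2 s.2.1, fun e => s.2.2 (by
      have h1 := lift_comp' (MulAut.conj h).toMonoidHom s.1 cc
      change FreeGroup.lift (fun x => MulAut.conj h (s.1 x)) cc =
        (MulAut.conj h) (FreeGroup.lift s.1 cc) at h1
      rw [h1, map_eq_one_iff _ (MulAut.conj h).injective] at e
      exact e)⟩

/-- The upper triangular tuples. -/
def T0 : Type := {s : TT E (G K) // ∀ x, s.1 x ∈ B K}

/-- The upper triangular tuples and the tuples over the product. -/
lemma card_T0 [Finite K] : Nat.card (T0 (K := K) E) = Nat.card (TT E (Kˣ × Ag K)) := by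
  have e : Kˣ × Ag K ≃* B K := MonoidHom.ofInjective jj_inj
  rw [card_TT_congr E e]
  refine Nat.card_congr
    { toFun := fun s => ⟨fun x => ⟨s.1.1 x, s.2 x⟩, ?_, ?_⟩
      invFun := fun s => ⟨⟨fun x => (s.1 x : G K), ?_, ?_⟩, fun x => (s.1 x).2⟩
      left_inv := fun s => rfl
      right_inv := fun s => rfl }
  · exact (cnd_map E (B K).subtype (B K).subtype_injective _).1 s.1.2.1
  · intro h
    refine s.1.2.2 ?_
    have h1 := lift_comp' (B K).subtype (fun x => (⟨s.1.1 x, s.2 x⟩ : B K)) cc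
    rw [h, map_one] at h1
    exact h1
  · exact (cnd_map E (B K).subtype (B K).subtype_injective s.1).2 s.2.1
  · intro h
    refine s.2.2 ?_
    have h1 := lift_comp' (B K).subtype s.1 cc
    change FreeGroup.lift (fun x => (s.1 x : G K)) cc = _ at h1
    rw [h] at h1
    exact (map_eq_one_iff _ (B K).subtype_injective).1 h1.symm

lemma conj_inv_apply (h g : G K) : MulAut.conj h⁻¹ g = h⁻¹ * g * h := by
  rw [MulAut.conj_apply, inv_inv]

/-- The commutator of an upper triangular tuple. -/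
lemma upper_cc (t : TT E (G K)) (ht : ∀ x, t.1 x ∈ B K) :
    (FreeGroup.lift t.1 cc).1 1 0 = 0 ∧
      (FreeGroup.lift t.1 cc).1 0 0 = (FreeGroup.lift t.1 cc).1 1 1 ∧
      (FreeGroup.lift t.1 cc).1 0 1 ≠ 0 := by
  choose p hp using ht
  have h1 : t.1 = fun x => jj (p x) := funext fun x => (hp x).symm
  have h2 : FreeGroup.lift t.1 cc = jj (1, Ag.tr (Ag.dd (p (Sum.inl 0)).2 (p (Sum.inl 1)).2)) := by
    rw [h1, lift_comp', lift_cc]
    congr 1
    refine Prod.ext ?_ (Ag.comm_eq _ _)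
    exact commutatorElement_eq_one_iff_mul_comm.2 (mul_comm _ _)
  have h3 := t.2.2
  rw [h2] at h3 ⊢
  refine ⟨rfl, ?_, ?_⟩
  · rw [jj_00, jj_11]
    simp [Ag.tr]
  · rw [jj_01]
    intro h4
    refine h3 ?_
    simp only [Ag.tr, Units.val_one, one_mul] at h4
    rw [h4]
    exact map_one jj

/-- The fibres. -/
lemma fibre (s : TT E (G K)) : Nonempty (B K ≃ {h : G K // ∀ x, h⁻¹ * s.1 x * h ∈ B K}) := by
  obtain ⟨h₀, hh₀⟩ := exists_upper E s.1 s.2.1 s.2.2
  refine ⟨{ toFun := fun g => ⟨h₀ * g, fun x => ?_⟩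
            invFun := fun h => ⟨h₀⁻¹ * h, ?_⟩
            left_inv := fun g => Subtype.ext (by
              change h₀⁻¹ * (h₀ * g) = g
              rw [inv_mul_cancel_left])
            right_inv := fun h => Subtype.ext (by
              change h₀ * (h₀⁻¹ * h) = h
              rw [mul_inv_cancel_left]) }⟩
  · have h1 : (h₀ * g)⁻¹ * s.1 x * (h₀ * g) = (g : G K)⁻¹ * (h₀⁻¹ * s.1 x * h₀) * g := by group
    rw [h1]
    exact (B K).mul_mem ((B K).mul_mem ((B K).inv_mem g.2) (hh₀ x)) g.2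
  · -- the two upper triangular tuples
    let t : TT E (G K) := cjT E h₀⁻¹ s
    let t' : TT E (G K) := cjT E h.1⁻¹ s
    have ht : ∀ x, t.1 x ∈ B K := fun x => by
      change MulAut.conj h₀⁻¹ (s.1 x) ∈ B K
      rw [conj_inv_apply]
      exact hh₀ x
    have ht' : ∀ x, t'.1 x ∈ B K := fun x => by
      change MulAut.conj h.1⁻¹ (s.1 x) ∈ B K
      rw [conj_inv_apply]
      exact h.2 x
    obtain ⟨h10, hd, h01⟩ := upper_cc E t ht
    obtain ⟨h10', -, -⟩ := upper_cc E t' ht'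
    refine mem_B.2 (upper_of_conj h10 hd h01 h10' ?_)
    have e1 : FreeGroup.lift t.1 cc = h₀⁻¹ * FreeGroup.lift s.1 cc * h₀ := by
      rw [← conj_inv_apply]
      exact lift_comp' (MulAut.conj h₀⁻¹).toMonoidHom s.1 cc
    have e2 : FreeGroup.lift t'.1 cc = h.1⁻¹ * FreeGroup.lift s.1 cc * h.1 := by
      rw [← conj_inv_apply]
      exact lift_comp' (MulAut.conj h.1⁻¹).toMonoidHom s.1 cc
    rw [e1, e2]
    group

/-- The pairs of a tuple and a matrix that makes it upper triangular. -/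
noncomputable def pairs : (Σ s : TT E (G K), {h : G K // ∀ x, h⁻¹ * s.1 x * h ∈ B K}) ≃
    G K × T0 (K := K) E where
  toFun p := (p.2.1, ⟨cjT E p.2.1⁻¹ p.1, fun x => by
    change MulAut.conj p.2.1⁻¹ (p.1.1 x) ∈ B K
    rw [conj_inv_apply]
    exact p.2.2 x⟩)
  invFun q := ⟨cjT E q.1 q.2.1, ⟨q.1, fun x => by
    change q.1⁻¹ * MulAut.conj q.1 (q.2.1.1 x) * q.1 ∈ B K
    rw [MulAut.conj_apply]
    have h : q.1⁻¹ * (q.1 * q.2.1.1 x * q.1⁻¹) * q.1 = q.2.1.1 x := by group
    rw [h]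
    exact q.2.2 x⟩⟩
  left_inv p := by
    obtain ⟨s, h, hh⟩ := p
    have h1 : cjT E h (cjT E h⁻¹ s) = s := Subtype.ext (funext fun x => by
      change MulAut.conj h (MulAut.conj h⁻¹ (s.1 x)) = s.1 x
      rw [conj_inv_apply, MulAut.conj_apply]
      group)
    refine Sigma.ext h1 ?_
    change HEq (⟨h, _⟩ : {h' : G K // ∀ x, h'⁻¹ * (cjT E h (cjT E h⁻¹ s)).1 x * h' ∈ B K})
      (⟨h, hh⟩ : {h' : G K // ∀ x, h'⁻¹ * s.1 x * h' ∈ B K})
    congr 1
    · rw [h1]
    · exact proof_irrel_heq _ _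
  right_inv q := by
    refine Prod.ext rfl (Subtype.ext (Subtype.ext (funext fun x => ?_)))
    change MulAut.conj q.1⁻¹ (MulAut.conj q.1 (q.2.1.1 x)) = q.2.1.1 x
    rw [conj_inv_apply, MulAut.conj_apply]
    group

variable (K)

instance [Finite K] : Finite (G K) := by
  have := Fintype.ofFinite K
  classical
  infer_instance

lemma card_mul [Finite K] : Nat.card (TT E (G K)) * Nat.card (B K) =
    Nat.card (G K) * Nat.card (TT E (Kˣ × Ag K)) := by
  rw [← card_T0, ← Nat.card_prod, ← Nat.card_prod]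
  refine Nat.card_congr (Equiv.trans ?_ (pairs E))
  exact (Equiv.sigmaEquivProd _ _).symm.trans
    (Equiv.sigmaCongrRight fun s => Classical.choice (fibre E s))

lemma card_G [Finite K] : (Nat.card (G K) : ℂ) =
    ((Nat.card K : ℂ) ^ 2 - 1) * ((Nat.card K : ℂ) ^ 2 - Nat.card K) := by
  have := Fintype.ofFinite K
  have h1 : 1 ≤ Fintype.card K := Fintype.card_pos
  rw [Matrix.card_GL_field, Fin.prod_univ_two, Nat.card_eq_fintype_card]
  have h2 : Fintype.card K ≤ Fintype.card K ^ 2 := by nlinarith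
  have h3 : 1 ≤ Fintype.card K ^ 2 := by nlinarith
  simp only [Fin.val_zero, Fin.val_one, pow_zero, pow_one]
  rw [Nat.cast_mul, Nat.cast_sub h3, Nat.cast_sub h2]
  push_cast
  ring

lemma card_B [Finite K] : (Nat.card (B K) : ℂ) = (Nat.card K : ℂ) * ((Nat.card K : ℂ) - 1) ^ 2 := by
  have e : Kˣ × Ag K ≃* B K := MonoidHom.ofInjective jj_inj
  have h6 : (Nat.card Kˣ : ℂ) = (Nat.card K : ℂ) - 1 := by
    rw [← card_units K]
    push_cast
    ring
  rw [← Nat.card_congr e.toEquiv, Nat.card_prod, Nat.card_congr (agProd K), Nat.card_prod]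
  push_cast
  rw [h6]
  ring

/-- **The number of the tuples.** -/
theorem card_TT_gl [Finite K] : (Nat.card (TT E (G K)) : ℂ) = ((Nat.card K : ℂ) + 1) *
    (((Nat.card K : ℂ) - 1) ^ (a + b + 9) * ((Nat.card K : ℂ) ^ (a + b + 8) *
      (((Nat.card K : ℂ) - 2) * (((Nat.card K : ℂ) - 2) * (((Nat.card K : ℂ) - 3) *
        (Nat.card {s : Fin a ⊕ Fin b → Kˣ // Q E s} : ℂ)))))) := by
  have h1 : (Nat.card (TT E (G K)) : ℂ) * Nat.card (B K) =
      Nat.card (G K) * Nat.card (TT E (Kˣ × Ag K)) := by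
    exact_mod_cast card_mul K E
  have h6 : (Nat.card Kˣ : ℂ) = (Nat.card K : ℂ) - 1 := by
    rw [← card_units K]
    push_cast
    ring
  rw [card_G, card_B, card_TT_prod] at h1
  push_cast at h1
  rw [card_TT_ag, h6] at h1
  have h2 : (Nat.card K : ℂ) ≠ 0 := by exact_mod_cast (Nat.card_pos (α := K)).ne'
  have h3 : (Nat.card K : ℂ) - 1 ≠ 0 := by
    rw [← h6]
    exact_mod_cast (Nat.card_pos (α := Kˣ)).ne'
  have h4 : (Nat.card K : ℂ) * ((Nat.card K : ℂ) - 1) ^ 2 ≠ 0 := mul_ne_zero h2 (pow_ne_zero _ h3)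
  refine mul_right_cancel₀ h4 (h1.trans ?_)
  ring

end Gl

end Pool.Agent.H865.RV
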