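import Mathlib

/-!
# The group `AGL_1` and homomorphisms from presented groups
-/

set_option autoImplicit false

namespace Pool.Agent.H865.RV

/-- The pairs `(a, b)`, `a` a unit, with the multiplication of the maps `z ↦ a z + b`. -/
@[ext]
structure Ag (R : Type) [CommRing R] where
  /-- the slope -/
  a : Rˣ
  /-- the value at zero -/
  b : R

namespace Ag

section ring

variable {R S : Type} [CommRing R] [CommRing S]

instance : Group (Ag R) where
  mul g h := ⟨g.a * h.a, g.a * h.b + g.b⟩
  one := ⟨1, 0⟩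
  inv g := ⟨g.a⁻¹, -(((g.a⁻¹ : Rˣ) : R) * g.b)⟩
  mul_assoc g h l := by
    refine Ag.ext (mul_assoc _ _ _) ?_
    change ((g.a * h.a : Rˣ) : R) * l.b + (g.a * h.b + g.b) = g.a * (h.a * l.b + h.b) + g.b
    rw [Units.val_mul]
    ring
  one_mul g := by
    refine Ag.ext (one_mul _) ?_
    change ((1 : Rˣ) : R) * g.b + 0 = g.b
    rw [Units.val_one, one_mul, add_zero]
  mul_one g := by
    refine Ag.ext (mul_one _) ?_
    change (g.a : R) * 0 + g.b = g.b
    rw [mul_zero, zero_add]
  inv_mul_cancel g := by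
    refine Ag.ext (inv_mul_cancel _) ?_
    change ((g.a⁻¹ : Rˣ) : R) * g.b + -(((g.a⁻¹ : Rˣ) : R) * g.b) = 0
    rw [add_neg_cancel]

@[simp] lemma mul_a (g h : Ag R) : (g * h).a = g.a * h.a := rfl
@[simp] lemma mul_b (g h : Ag R) : (g * h).b = g.a * h.b + g.b := rfl
@[simp] lemma one_a : (1 : Ag R).a = 1 := rfl
@[simp] lemma one_b : (1 : Ag R).b = 0 := rfl
@[simp] lemma inv_a (g : Ag R) : g⁻¹.a = g.a⁻¹ := rfl
@[simp] lemma inv_b (g : Ag R) : g⁻¹.b = -(((g.a⁻¹ : Rˣ) : R) * g.b) := rfl

/-- Functoriality. -/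
def map (φ : R →+* S) : Ag R →* Ag S where
  toFun g := ⟨Units.map φ g.a, φ g.b⟩
  map_one' := by
    refine Ag.ext (map_one _) (map_zero _)
  map_mul' g h := by
    refine Ag.ext (map_mul _ _ _) ?_
    change φ (g.a * h.b + g.b) = φ g.a * φ h.b + φ g.b
    rw [map_add, map_mul]

@[simp] lemma map_a (φ : R →+* S) (g : Ag R) : (map φ g).a = Units.map φ g.a := rfl
@[simp] lemma map_b (φ : R →+* S) (g : Ag R) : (map φ g).b = φ g.b := rfl

/-- The translation by `d`. -/
def tr (d : R) : Ag R := ⟨1, d⟩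

lemma tr_mul (d e : R) : tr d * tr e = tr (d + e) := by
  refine Ag.ext (one_mul _) ?_
  change ((1 : Rˣ) : R) * e + d = d + e
  rw [Units.val_one, one_mul, add_comm]

lemma tr_zero : tr (0 : R) = 1 := rfl

lemma tr_eq_one {d : R} : tr d = 1 ↔ d = 0 :=
  ⟨fun h => congrArg Ag.b h, fun h => by rw [h, tr_zero]⟩

lemma conj_tr (g : Ag R) (d : R) : g * tr d * g⁻¹ = tr (g.a * d) := by
  refine Ag.ext ?_ ?_
  · change g.a * 1 * g.a⁻¹ = 1
    rw [mul_one, mul_inv_cancel]
  · change ((g.a * 1 : Rˣ) : R) * -(((g.a⁻¹ : Rˣ) : R) * g.b) + (g.a * d + g.b) = g.a * d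
    rw [mul_one, mul_neg, ← mul_assoc, Units.mul_inv, one_mul]
    ring

lemma prod_tr (L : List R) : (L.map tr).prod = tr L.sum := by
  induction L with
  | nil => rfl
  | cons d L ih => rw [List.map_cons, List.prod_cons, List.sum_cons, ih, tr_mul]

/-- The commutator of two affine maps is the translation by this element. -/
def dd (g h : Ag R) : R := (g.a - 1) * h.b - (h.a - 1) * g.b

open scoped commutatorElement in
lemma comm_eq (g h : Ag R) : ⁅g, h⁆ = tr (dd g h) := by
  rw [commutatorElement_def]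
  refine Ag.ext ?_ ?_
  · change g.a * h.a * g.a⁻¹ * h.a⁻¹ = 1
    rw [mul_comm g.a h.a, mul_assoc h.a, mul_inv_cancel, mul_one, mul_inv_cancel]
  · change ((g.a * h.a * g.a⁻¹ : Rˣ) : R) * -(((h.a⁻¹ : Rˣ) : R) * h.b) +
      (((g.a * h.a : Rˣ) : R) * -(((g.a⁻¹ : Rˣ) : R) * g.b) + (g.a * h.b + g.b)) =
        ((g.a : R) - 1) * h.b - ((h.a : R) - 1) * g.b
    have h1 : g.a * h.a * g.a⁻¹ = h.a := by rw [mul_comm g.a h.a, mul_assoc, mul_inv_cancel, mul_one]
    rw [h1, mul_comm g.a h.a, Units.val_mul]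
    have h2 : (h.a : R) * -(((h.a⁻¹ : Rˣ) : R) * h.b) = - h.b := by
      rw [mul_neg, ← mul_assoc, Units.mul_inv, one_mul]
    have h3 : (h.a : R) * g.a * -(((g.a⁻¹ : Rˣ) : R) * g.b) = - (h.a * g.b) := by
      rw [mul_neg, mul_assoc, ← mul_assoc (g.a : R), Units.mul_inv, one_mul]
    rw [h2, h3]
    ring

end ring

section field

variable {K : Type} [Field K]

/-- The affine map of the pair. -/
noncomputable def toAff (g : Ag K) : K ≃ᵃ[K] K where
  toFun z := g.a * z + g.b
  invFun z := ((g.a⁻¹ : Kˣ) : K) * (z - g.b)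
  left_inv z := by
    beta_reduce
    rw [add_sub_cancel_right, ← mul_assoc, Units.inv_mul, one_mul]
  right_inv z := by
    beta_reduce
    rw [← mul_assoc, Units.mul_inv, one_mul, sub_add_cancel]
  linear := LinearEquiv.smulOfUnit g.a
  map_vadd' p v := by
    change (g.a : K) * (v + p) + g.b = g.a * v + (g.a * p + g.b)
    ring

@[simp] lemma toAff_apply (g : Ag K) (z : K) : toAff g z = g.a * z + g.b := rfl

/-- The group of the affine transformations. -/
noncomputable def affEquiv : Ag K ≃* (K ≃ᵃ[K] K) :=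
  MulEquiv.ofBijective (⟨⟨toAff, by
    ext z
    change ((1 : Kˣ) : K) * z + 0 = z
    rw [Units.val_one, one_mul, add_zero]⟩, fun g h => by
    ext z
    change ((g.a * h.a : Kˣ) : K) * z + (g.a * h.b + g.b) = g.a * (h.a * z + h.b) + g.b
    rw [Units.val_mul]
    ring⟩ : Ag K →* (K ≃ᵃ[K] K)) (by
    constructor
    · intro g h e
      have e' : toAff g = toAff h := e
      have h0 := congrArg (fun f : K ≃ᵃ[K] K => f 0) e'
      have h1 := congrArg (fun f : K ≃ᵃ[K] K => f 1) e'
      simp only [toAff_apply, mul_zero, zero_add, mul_one] at h0 h1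
      rw [h0] at h1
      exact Ag.ext (Units.ext (add_right_cancel h1)) h0
    · intro f
      have hne : f.linear 1 ≠ 0 := fun h => one_ne_zero (f.linear.map_eq_zero_iff.1 h)
      refine ⟨⟨Units.mk0 (f.linear 1) hne, f 0⟩, ?_⟩
      ext z
      change f.linear 1 * z + f 0 = f z
      have h := f.map_vadd 0 z
      rw [vadd_eq_add, add_zero, vadd_eq_add] at h
      rw [h]
      congr 1
      have h2 := f.linear.map_smul z 1
      rw [smul_eq_mul, mul_one, smul_eq_mul] at h2
      rw [h2, mul_comm])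

end field

end Ag

/-- The homomorphisms from a presented group. -/
noncomputable def homEquiv {α G : Type} [Group G] (rels : Set (FreeGroup α)) :
    (PresentedGroup rels →* G) ≃ {f : α → G // ∀ r ∈ rels, FreeGroup.lift f r = 1} where
  toFun φ := ⟨fun x => φ (PresentedGroup.of x), fun r hr => by
    have h : FreeGroup.lift (fun x => φ (PresentedGroup.of x)) =
        φ.comp (PresentedGroup.mk rels) := by
      ext x
      simp [PresentedGroup.of]
    rw [h, MonoidHom.comp_apply, PresentedGroup.one_of_mem hr, map_one]⟩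
  invFun f := PresentedGroup.toGroup f.2
  left_inv φ := by
    ext x
    simp
  right_inv f := by
    refine Subtype.ext (funext fun x => ?_)
    simp

/-- The number of the homomorphisms to an isomorphic group. -/
lemma card_hom_congr {Γ Γ' G G' : Type} [Group Γ] [Group Γ'] [Group G] [Group G'] (e : Γ ≃* Γ')
    (e' : G ≃* G') : Nat.card (Γ →* G) = Nat.card (Γ' →* G') :=
  Nat.card_congr
    { toFun := fun φ => (e'.toMonoidHom.comp φ).comp e.symm.toMonoidHom
      invFun := fun φ => (e'.symm.toMonoidHom.comp φ).comp e.toMonoidHom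
      left_inv := fun φ => by
        ext x
        simp
      right_inv := fun φ => by
        ext x
        simp }

/-- `#Hom(Γ, AGL_1(K))` -/
noncomputable def homNumber (Γ : Type) [Group Γ] (K : Type) [Field K] : ℕ :=
  Nat.card (Γ →* (K ≃ᵃ[K] K))

lemma homNumber_eq {Γ : Type} [Group Γ] (K : Type) [Field K] :
    homNumber Γ K = Nat.card (Γ →* Ag K) :=
  card_hom_congr (MulEquiv.refl Γ) Ag.affEquiv.symm

lemma homNumber_presented {α : Type} (rels : Set (FreeGroup α)) (K : Type) [Field K] :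
    homNumber (PresentedGroup rels) K =
      Nat.card {f : α → Ag K // ∀ r ∈ rels, FreeGroup.lift f r = 1} := by
  rw [homNumber_eq]
  exact Nat.card_congr (homEquiv rels)

end Pool.Agent.H865.RV
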