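import Pool.Agent.H865.RV.Gr

/-!
# The scheme `Hom(Γ, GL_m)` for a finitely generated group `Γ`
-/

set_option autoImplicit false

open MvPolynomial

namespace Pool.Agent.H865.RV

/-- `#Hom(Γ, GL_m(K))` -/
noncomputable def glNumber (m : ℕ) (Γ : Type) [Group Γ] (K : Type) [Field K] : ℕ :=
  Nat.card (Γ →* GL (Fin m) K)

namespace Sg

variable (m n : ℕ)

/-- The variables: the entries of the matrices `X_i` and `Y_i`. -/
abbrev Vr : Type := (Fin n × Bool) × (Fin m × Fin m)

/-- The equations `X_i Y_i = 1` and `Y_i X_i = 1`. -/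
noncomputable def eqn (v : Vr m n) : MvPolynomial (Vr m n) ℤ :=
  ∑ k, X (v.1, (v.2.1, k)) * X ((v.1.1, !v.1.2), (k, v.2.2)) -
    (1 : Matrix (Fin m) (Fin m) (MvPolynomial (Vr m n) ℤ)) v.2.1 v.2.2

/-- The coordinate ring of `GL_m ^ n`. -/
abbrev R : Type := MvPolynomial (Vr m n) ℤ ⧸ Ideal.span (Set.range (eqn m n))

variable {m n}

/-- The coordinates. -/
noncomputable def co (v : Vr m n) : R m n := Ideal.Quotient.mk _ (X v)

/-- The matrices. -/
noncomputable def M (i : Fin n × Bool) : Matrix (Fin m) (Fin m) (R m n) := fun j k => co (i, (j, k))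

lemma map_ent {A B : Type} [CommRing A] [CommRing B] (f : A →+* B) (j k : Fin m) :
    f ((1 : Matrix (Fin m) (Fin m) A) j k) = (1 : Matrix (Fin m) (Fin m) B) j k := by
  rw [Matrix.one_apply, Matrix.one_apply]
  split_ifs
  · exact map_one f
  · exact map_zero f

lemma M_mul (i : Fin n × Bool) : M (m := m) i * M (i.1, !i.2) = 1 := by
  ext j k
  have h : Ideal.Quotient.mk (Ideal.span (Set.range (eqn m n))) (eqn m n (i, (j, k))) = 0 :=
    Ideal.Quotient.eq_zero_iff_mem.2 (Ideal.subset_span (Set.mem_range_self _))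
  rw [eqn, map_sub, map_sum, sub_eq_zero] at h
  simp only [map_mul] at h
  rw [map_ent] at h
  rw [Matrix.mul_apply]
  exact h

/-- The universal tuple. -/
noncomputable def U (i : Fin n) : GL (Fin m) (R m n) :=
  ⟨M (i, false), M (i, true), M_mul (i, false), M_mul (i, true)⟩

/-- The ideal of the relations. -/
noncomputable def J (rels : Set (FreeGroup (Fin n))) : Ideal (R m n) :=
  Ideal.span {x | ∃ r ∈ rels, ∃ j k, x = (FreeGroup.lift U r).1 j k -
    (1 : Matrix (Fin m) (Fin m) (R m n)) j k}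

variable {S : Type} [CommRing S]

lemma lift_map (ψ : R m n →+* S) (r : FreeGroup (Fin n)) :
    FreeGroup.lift (fun i => Matrix.GeneralLinearGroup.map ψ (U i)) r =
      Matrix.GeneralLinearGroup.map ψ (FreeGroup.lift U r) := by
  have h : FreeGroup.lift (fun i => Matrix.GeneralLinearGroup.map ψ (U i)) =
      (Matrix.GeneralLinearGroup.map ψ).comp (FreeGroup.lift (U (m := m))) := by
    refine FreeGroup.ext_hom _ _ fun i => ?_
    rw [FreeGroup.lift_apply_of, MonoidHom.comp_apply, FreeGroup.lift_apply_of]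
  rw [h]
  rfl

lemma rel_iff (ψ : R m n →+* S) (rels : Set (FreeGroup (Fin n))) :
    (∀ x ∈ J rels, ψ x = 0) ↔
      ∀ r ∈ rels, FreeGroup.lift (fun i => Matrix.GeneralLinearGroup.map ψ (U i)) r = 1 := by
  have hone : ∀ j k, ψ ((1 : Matrix (Fin m) (Fin m) (R m n)) j k) =
      (1 : Matrix (Fin m) (Fin m) S) j k := fun j k => map_ent ψ j k
  constructor
  · intro h r hr
    rw [lift_map]
    refine Units.ext (Matrix.ext fun j k => ?_)
    have h1 := h _ (Ideal.subset_span ⟨r, hr, j, k, rfl⟩)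
    rw [map_sub, hone, sub_eq_zero] at h1
    exact h1
  · intro h x hx
    have h2 : J rels ≤ RingHom.ker ψ := by
      refine Ideal.span_le.2 ?_
      rintro y ⟨r, hr, j, k, rfl⟩
      have h3 := h r hr
      rw [lift_map] at h3
      change ψ _ = 0
      rw [map_sub, hone, sub_eq_zero]
      exact congrArg (fun g : GL (Fin m) S => g.1 j k) h3
    exact h2 hx

/-- The values of the variables at a tuple. -/
def vals (f : Fin n → GL (Fin m) S) (v : Vr m n) : S :=
  if v.1.2 then (f v.1.1)⁻¹.1 v.2.1 v.2.2 else (f v.1.1).1 v.2.1 v.2.2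

lemma vals_mul (f : Fin n → GL (Fin m) S) (i : Fin n × Bool) (j k : Fin m) :
    ∑ l, vals f (i, (j, l)) * vals f ((i.1, !i.2), (l, k)) = (1 : Matrix (Fin m) (Fin m) S) j k := by
  obtain ⟨i, b⟩ := i
  cases b
  · have h : (f i).1 * (f i)⁻¹.1 = 1 := (f i).mul_inv
    rw [← h, Matrix.mul_apply]
    rfl
  · have h : (f i)⁻¹.1 * (f i).1 = 1 := (f i).inv_mul
    rw [← h, Matrix.mul_apply]
    rfl

/-- The homomorphism of a tuple. -/
noncomputable def ofTuple (f : Fin n → GL (Fin m) S) : R m n →+* S :=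
  Ideal.Quotient.lift _ (eval₂Hom (Int.castRingHom S) (vals f)) (by
    intro x hx
    have h : Ideal.span (Set.range (eqn m n)) ≤
        RingHom.ker (eval₂Hom (Int.castRingHom S) (vals f)) := by
      refine Ideal.span_le.2 ?_
      rintro _ ⟨v, rfl⟩
      change eval₂Hom (Int.castRingHom S) (vals f) (eqn m n v) = 0
      rw [eqn, map_sub, map_sum, sub_eq_zero, map_ent]
      simp only [map_mul, eval₂Hom_X']
      exact vals_mul f v.1 v.2.1 v.2.2
    exact h hx)

lemma ofTuple_co (f : Fin n → GL (Fin m) S) (v : Vr m n) : ofTuple f (co v) = vals f v := by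
  change eval₂Hom (Int.castRingHom S) (vals f) (X v) = vals f v
  rw [eval₂Hom_X']

lemma map_ofTuple (f : Fin n → GL (Fin m) S) (i : Fin n) :
    Matrix.GeneralLinearGroup.map (ofTuple f) (U i) = f i :=
  Units.ext (Matrix.ext fun j k => ofTuple_co f ((i, false), (j, k)))

lemma hom_ext {φ ψ : R m n →+* S}
    (h : ∀ i, Matrix.GeneralLinearGroup.map φ (U i) = Matrix.GeneralLinearGroup.map ψ (U i)) :
    φ = ψ := by
  refine Ideal.Quotient.ringHom_ext (MvPolynomial.ringHom_ext (fun r => ?_) fun v => ?_)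
  · have h1 : (φ.comp (Ideal.Quotient.mk _)).comp (C : ℤ →+* MvPolynomial (Vr m n) ℤ) =
        (ψ.comp (Ideal.Quotient.mk _)).comp C := RingHom.ext_int _ _
    exact RingHom.congr_fun h1 r
  · obtain ⟨⟨i, b⟩, j, k⟩ := v
    cases b
    · exact congrArg (fun g : GL (Fin m) S => g.1 j k) (h i)
    · exact congrArg (fun g : GL (Fin m) S => g⁻¹.1 j k) (h i)

lemma lift_comp_mk (rels : Set (FreeGroup (Fin n))) (g : R m n →+* S) (hg : ∀ x ∈ J rels, g x = 0) :
    (Ideal.Quotient.lift (J rels) g hg).comp (Ideal.Quotient.mk (J rels)) = g :=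
  RingHom.ext fun _ => rfl

lemma rel_ofTuple (rels : Set (FreeGroup (Fin n))) (f : Fin n → GL (Fin m) S)
    (hf : ∀ r ∈ rels, FreeGroup.lift f r = 1) : ∀ x ∈ J rels, ofTuple f x = 0 :=
  (rel_iff _ rels).2 (by
    have h : (fun i => Matrix.GeneralLinearGroup.map (ofTuple f) (U i)) = f :=
      funext fun i => map_ofTuple f i
    rw [h]
    exact hf)

/-- The points. -/
noncomputable def pts (rels : Set (FreeGroup (Fin n))) :
    ((R m n ⧸ J rels) →+* S) ≃ {f : Fin n → GL (Fin m) S // ∀ r ∈ rels, FreeGroup.lift f r = 1} where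
  toFun φ := ⟨fun i => Matrix.GeneralLinearGroup.map (φ.comp (Ideal.Quotient.mk (J rels))) (U i),
    (rel_iff _ rels).1 fun x hx => by
      rw [RingHom.comp_apply, Ideal.Quotient.eq_zero_iff_mem.2 hx, map_zero]⟩
  invFun f := Ideal.Quotient.lift (J rels) (ofTuple f.1) (rel_ofTuple rels f.1 f.2)
  left_inv φ := by
    refine Ideal.Quotient.ringHom_ext ?_
    refine hom_ext fun i => ?_
    rw [lift_comp_mk, map_ofTuple]
  right_inv f := by
    refine Subtype.ext (funext fun i => ?_)
    change Matrix.GeneralLinearGroup.map ((Ideal.Quotient.lift (J rels) (ofTuple f.1) _).comp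
      (Ideal.Quotient.mk (J rels))) (U i) = f.1 i
    rw [lift_comp_mk, map_ofTuple]

end Sg

/-- The scheme `Hom(Γ, GL_m)` is an affine scheme of finite type over `ℤ`. -/
theorem exists_ring_gl (m : ℕ) {n : ℕ} (rels : Set (FreeGroup (Fin n))) :
    ∃ (A : Type) (_ : CommRing A), Algebra.FiniteType ℤ A ∧
      ∀ (K : Type) [Field K], Nat.card (A →+* K) = glNumber m (PresentedGroup rels) K := by
  refine ⟨Sg.R m n ⧸ Sg.J rels, inferInstance, ?_, fun K _ => ?_⟩
  · have h1 : Algebra.FiniteType ℤ (Sg.R m n) :=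
      Algebra.FiniteType.of_surjective (Ideal.Quotient.mkₐ ℤ (Ideal.span (Set.range (Sg.eqn m n))))
        (Ideal.Quotient.mkₐ_surjective ℤ _)
    exact Algebra.FiniteType.of_surjective (Ideal.Quotient.mkₐ ℤ (Sg.J rels))
      (Ideal.Quotient.mkₐ_surjective ℤ _)
  · exact Nat.card_congr ((Sg.pts rels).trans (homEquiv rels).symm)

end Pool.Agent.H865.RV
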