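import Pool.Agent.H865.RV.Mn
import Pool.Agent.H865.RV.G6
import Pool.Agent.H865.RV.Sg

/-!
# Zeta functions of the schemes `Hom(Γ, GL_m)`
-/

set_option autoImplicit false

open CategoryTheory AlgebraicGeometry Pool.Agent.Y116.UV Pool.Agent.Q193.Zeta Pool.Agent.Q282.UZ
  Pool.Agent.NH36.Cz

namespace Pool.Agent.H865.RV

/-- A finitely generated group as a presented group. -/
lemma exists_pres (Γ : Type) [Group Γ] [Group.FG Γ] :
    ∃ (n : ℕ) (rels : Set (FreeGroup (Fin n))), Nonempty (PresentedGroup rels ≃* Γ) := by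
  obtain ⟨n, φ, hφ⟩ : ∃ (n : ℕ) (φ : FreeGroup (Fin n) →* Γ), Function.Surjective φ := by
    obtain ⟨S, hS⟩ := Group.fg_iff.1 (inferInstance : Group.FG Γ)
    have := hS.2.to_subtype
    have := Fintype.ofFinite S
    obtain ⟨e⟩ : Nonempty (Fin (Fintype.card S) ≃ S) := ⟨(Fintype.equivFin S).symm⟩
    refine ⟨Fintype.card S, FreeGroup.lift fun i => (e i : Γ), ?_⟩
    rw [← MonoidHom.range_eq_top, FreeGroup.range_lift_eq_closure]
    have h : Set.range (fun i => (e i : Γ)) = S := by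
      rw [show (fun i => (e i : Γ)) = Subtype.val ∘ e from rfl, e.surjective.range_comp,
        Subtype.range_coe]
    rw [h]
    exact hS.1
  exact ⟨n, (φ.ker : Set (FreeGroup (Fin n))),
    ⟨(QuotientGroup.quotientMulEquivOfEq (Subgroup.normalClosure_eq_self φ.ker)).trans
      (QuotientGroup.quotientKerEquivOfSurjective φ hφ)⟩⟩

lemma fg_of_fp (Γ : Type) [Group Γ] [h : Group.IsFinitelyPresented Γ] : Group.FG Γ := by
  obtain ⟨n, φ, hφ, -⟩ := h.out
  exact Group.fg_of_surjective hφ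

/-- All finitely generated groups and all `GL_m`. -/
theorem fg_cont_gl (H : ∀ X : Sch ℤ, FT False X → Co X) (m : ℕ) (Γ : Type) [Group Γ] [Group.FG Γ] :
    CountContinues fun K _ => glNumber m Γ K := by
  obtain ⟨n, rels, ⟨e⟩⟩ := exists_pres Γ
  obtain ⟨A, _, hA, h⟩ := exists_ring_gl m rels
  refine cont_of_ring H (fun K _ => glNumber m Γ K) A hA fun K _ _ => ?_
  rw [h K]
  exact card_hom_congr e (MulEquiv.refl _)

/-- The number of the homomorphisms from a finitely generated group to `GL_2(K)`. -/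
lemma exists_gn (Γ : Type) [Group Γ] [Group.FG Γ] :
    ∃ h : ℕ → ℂ, Bd h ∧ ∀ (K : Type) [Field K] [Finite K],
      h (Nat.card K) = (glNumber 2 Γ K : ℂ) := by
  obtain ⟨n, rels, ⟨e⟩⟩ := exists_pres Γ
  obtain ⟨h, hh⟩ := exists_fun (fun K _ => glNumber 2 Γ K) fun K L _ _ e =>
    card_hom_congr (MulEquiv.refl _)
      { toFun := Matrix.GeneralLinearGroup.map (e : K →+* L)
        invFun := Matrix.GeneralLinearGroup.map (e.symm : L →+* K)
        left_inv := fun g => Units.ext (Matrix.ext fun _ _ => e.symm_apply_apply _)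
        right_inv := fun g => Units.ext (Matrix.ext fun _ _ => e.apply_symm_apply _)
        map_mul' := map_mul _ }
  refine ⟨h, bd_of (fun K _ => glNumber 2 Γ K) hh (4 * n) fun K _ _ => ?_, hh⟩
  have h1 : glNumber 2 Γ K = Nat.card {f : Fin n → GL (Fin 2) K // ∀ r ∈ rels,
      FreeGroup.lift f r = 1} :=
    (card_hom_congr e.symm (MulEquiv.refl _)).trans (Nat.card_congr (homEquiv rels))
  have h2 : Nat.card (Fin n → GL (Fin 2) K) ≤ Nat.card K ^ (4 * n) := by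
    have h3 : Nat.card (GL (Fin 2) K) ≤ Nat.card K ^ 4 := by
      have h4 : Nat.card (Matrix (Fin 2) (Fin 2) K) = Nat.card K ^ 4 := by
        change Nat.card (Fin 2 → Fin 2 → K) = _
        rw [Nat.card_fun, Nat.card_fun, Nat.card_eq_fintype_card (α := Fin 2), Fintype.card_fin,
          ← pow_mul]
      rw [← h4]
      exact Nat.card_le_card_of_injective Units.val Units.val_injective
    rw [Nat.card_fun, Nat.card_eq_fintype_card (α := Fin n), Fintype.card_fin, pow_mul]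
    exact Nat.pow_le_pow_left h3 _
  rw [h1]
  exact (Nat.card_le_card_of_injective Subtype.val Subtype.val_injective).trans h2

/-- The growth of a product with `m - c`. -/
lemma bd_mul_pow {f : ℕ → ℂ} (hf : Bd f) (j : ℕ) : Bd fun m => ((m : ℂ) - 1) ^ j * f m := by
  induction j with
  | zero =>
    have e : (fun m : ℕ => ((m : ℂ) - 1) ^ 0 * f m) = f := funext fun m => by
      rw [pow_zero, one_mul]
    rw [e]
    exact hf
  | succ j ih =>
    have e : (fun m : ℕ => ((m : ℂ) - 1) ^ (j + 1) * f m) =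
        fun m : ℕ => ((m : ℂ) - ((1 : ℕ) : ℂ)) * (((m : ℂ) - 1) ^ j * f m) := funext fun m => by
      rw [Nat.cast_one]
      ring
    rw [e]
    exact bd_mul_sub ih 1

lemma bd_mul_m {f : ℕ → ℂ} (hf : Bd f) (j : ℕ) : Bd fun m => (m : ℂ) ^ j * f m := by
  have h := bd_zpow hf (j : ℤ)
  have e : (fun m : ℕ => (m : ℂ) ^ (j : ℤ) * f m) = fun m : ℕ => (m : ℂ) ^ j * f m :=
    funext fun m => by rw [zpow_natCast]
  rw [e] at h
  exact h

/-- **From `Hom(Γ, GL_2)` to the solutions in the torus.** -/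
theorem torus_of_gl (H : ∀ (Γ : Type) [Group Γ] [Group.IsFinitelyPresented Γ],
      CountContinues fun K _ => glNumber 2 Γ K)
    (a b c : ℕ) (E : Fin c → Finset (Fin a × Fin b)) (f : ℕ → ℂ)
    (hf : ∀ (K : Type) [Field K] [Finite K], f (Nat.card K) =
      (cn (Finset.univ : Finset (Fin a ⊕ Fin b)) E K : ℂ)) : HC f := by
  classical
  have bf : Bd f := bd_of (fun K _ => cn Finset.univ E K) hf (a + b) fun K _ _ => cn_le _ E K
  have hne : ∀ m : ℕ, IsPrimePow m → (m : ℂ) ≠ 0 := fun m hm => pow_ne hm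
  have := fg_of_fp (Del fun l => (E l).toList)
  have := fg_of_fp (Com a b)
  obtain ⟨h₁, B₁, hh₁⟩ := exists_gn (Del fun l => (E l).toList)
  obtain ⟨h₀, B₀, hh₀⟩ := exists_gn (Com a b)
  have c₁ : HC h₁ := (cont_iff _ B₁ hh₁).1 (H _)
  have c₀ : HC h₀ := (cont_iff _ B₀ hh₀).1 (H _)
  have e₁ : ∀ m : ℕ, IsPrimePow m → ((m : ℂ) + 1) * (((m : ℂ) - 1) ^ (a + b + 9) *
      ((m : ℂ) ^ (a + b + 8) * (((m : ℂ) - (2 : ℕ)) * (((m : ℂ) - (2 : ℕ)) *
        (((m : ℂ) - (3 : ℕ)) * f m))))) = h₁ m - h₀ m := by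
    intro m hm
    obtain ⟨K, _, _, rfl⟩ := exists_card hm
    have h1 : glNumber 2 (Del fun l => (E l).toList) K = glNumber 2 (Com a b) K +
        Nat.card (TT (fun l => (E l).toList) (Gl.G K)) := card_del _
    have h3 : Nat.card {s : Fin a ⊕ Fin b → Kˣ // Q (fun l => (E l).toList) s} =
        cn (Finset.univ : Finset (Fin a ⊕ Fin b)) E K := by
      refine Nat.card_congr
        { toFun := fun s => ⟨fun v => s.1 v, fun v _ => (s.1 v).ne_zero, fun l => ?_⟩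
          invFun := fun z => ⟨fun v => Units.mk0 (z.1 v) (z.2.1 v (Finset.mem_univ v)), fun l => ?_⟩
          left_inv := ?_
          right_inv := ?_ }
      · have := s.2 l
        rw [Finset.sum_map_toList] at this
        exact this
      · rw [Finset.sum_map_toList]
        exact z.2.2 l
      · intro s
        exact Subtype.ext (funext fun v => Units.ext rfl)
      · intro z
        rfl
    rw [hh₁ K, hh₀ K, hf K, h1, Nat.cast_add, add_sub_cancel_left, Gl.card_TT_gl, h3,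
      Nat.cast_ofNat, Nat.cast_ofNat]
  have c₂ : HC fun m : ℕ => ((m : ℂ) + 1) * (((m : ℂ) - 1) ^ (a + b + 9) *
      ((m : ℂ) ^ (a + b + 8) * (((m : ℂ) - (2 : ℕ)) * (((m : ℂ) - (2 : ℕ)) *
        (((m : ℂ) - (3 : ℕ)) * f m))))) := t_A1 h₁ h₀ _ B₁ B₀ e₁ c₁ c₀
  have b₃ : Bd fun m : ℕ => ((m : ℂ) - (3 : ℕ)) * f m := bd_mul_sub bf 3
  have b₂ : Bd fun m : ℕ => ((m : ℂ) - (2 : ℕ)) * (((m : ℂ) - (3 : ℕ)) * f m) := bd_mul_sub b₃ 2
  have b₁ : Bd fun m : ℕ => ((m : ℂ) - (2 : ℕ)) * (((m : ℂ) - (2 : ℕ)) *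
      (((m : ℂ) - (3 : ℕ)) * f m)) := bd_mul_sub b₂ 2
  have b₀ : Bd fun m : ℕ => (m : ℂ) ^ (a + b + 8) * (((m : ℂ) - (2 : ℕ)) *
      (((m : ℂ) - (2 : ℕ)) * (((m : ℂ) - (3 : ℕ)) * f m))) := bd_mul_m b₁ _
  have c₃ : HC fun m : ℕ => ((m : ℂ) - 1) ^ (a + b + 9) * ((m : ℂ) ^ (a + b + 8) *
      (((m : ℂ) - (2 : ℕ)) * (((m : ℂ) - (2 : ℕ)) * (((m : ℂ) - (3 : ℕ)) * f m)))) :=
    hc_of_add_one _ _ (bd_mul_pow b₀ _) (fun m _ => rfl) c₂
  have c₄ : HC fun m : ℕ => (m : ℂ) ^ (a + b + 8) * (((m : ℂ) - (2 : ℕ)) *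
      (((m : ℂ) - (2 : ℕ)) * (((m : ℂ) - (3 : ℕ)) * f m))) :=
    hc_of_sub_one_pow _ _ (bd_mul_pow b₀) c₃
  have c₅ : HC fun m : ℕ => ((m : ℂ) - (2 : ℕ)) * (((m : ℂ) - (2 : ℕ)) *
      (((m : ℂ) - (3 : ℕ)) * f m)) :=
    t_A2 _ _ (-((a + b + 8 : ℕ) : ℤ)) (fun m hm => by
      rw [zpow_neg, zpow_natCast, inv_mul_cancel_left₀ (pow_ne_zero _ (hne m hm))]) c₄
  have c₆ := hc_of_sub_nat _ _ 2 b₂ (fun m _ => rfl) c₅
  have c₇ := hc_of_sub_nat _ _ 2 b₃ (fun m _ => rfl) c₆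
  exact hc_of_sub_nat f _ 3 bf (fun m _ => rfl) c₇

/-- **The groups `Hom(Γ, GL_2)`.** -/
theorem all_of_gl (H : ∀ (Γ : Type) [Group Γ] [Group.IsFinitelyPresented Γ],
      CountContinues fun K _ => glNumber 2 Γ K) :
    ∀ X : Sch ℤ, FT False X → Co X :=
  all_of_torus fun a b c E _ f hf => torus_of_gl H a b c E f hf

end Pool.Agent.H865.RV
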