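import Pool.Agent.H865.RV.Gr

/-!
# The groups `Γ_E`: homomorphisms to `AGL_1(K)`
-/

set_option autoImplicit false

open scoped commutatorElement

namespace Pool.Agent.H865.RV

/-- The generators `u, v, x_1, …, x_a, y_1, …, y_b`. -/
abbrev Gen (a b : ℕ) : Type := Fin 2 ⊕ (Fin a ⊕ Fin b)

variable {a b c : ℕ}

/-- The commutator `⁅u, v⁆`. -/
def cuv : FreeGroup (Gen a b) :=
  ⁅(FreeGroup.of (Sum.inl 0) : FreeGroup (Gen a b)), (FreeGroup.of (Sum.inl 1) : FreeGroup (Gen a b))⁆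

/-- The word `x_i y_j`. -/
def word (e : Fin a × Fin b) : FreeGroup (Gen a b) :=
  FreeGroup.of (Sum.inr (Sum.inl e.1)) * FreeGroup.of (Sum.inr (Sum.inr e.2))

/-- The product of the conjugates `(x_i y_j) ⁅u, v⁆ (x_i y_j)⁻¹` for the pairs `(i, j)` in the list. -/
def rel (L : List (Fin a × Fin b)) : FreeGroup (Gen a b) :=
  (L.map fun e => word e * cuv * (word e)⁻¹).prod

/-- The group with the generators `u, v, x_1, …, x_a, y_1, …, y_b` and the relators
`∏_{(i, j) ∈ E_l} (x_i y_j) ⁅u, v⁆ (x_i y_j)⁻¹`. -/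
abbrev Gam (E : Fin c → List (Fin a × Fin b)) : Type := PresentedGroup (Set.range fun l => rel (E l))

section eval

variable {K : Type} [Field K]

lemma lift_rel (f : Gen a b → Ag K) (L : List (Fin a × Fin b)) :
    FreeGroup.lift f (rel L) = Ag.tr ((L.map fun e => ((f (Sum.inr (Sum.inl e.1))).a : K) *
      (f (Sum.inr (Sum.inr e.2))).a).sum * Ag.dd (f (Sum.inl 0)) (f (Sum.inl 1))) := by
  have h1 : ∀ e : Fin a × Fin b, FreeGroup.lift f (word e * cuv * (word e)⁻¹) =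
      Ag.tr (((f (Sum.inr (Sum.inl e.1))).a : K) * (f (Sum.inr (Sum.inr e.2))).a *
        Ag.dd (f (Sum.inl 0)) (f (Sum.inl 1))) := by
    intro e
    rw [map_mul, map_mul, map_inv, cuv, map_commutatorElement, FreeGroup.lift_apply_of,
      FreeGroup.lift_apply_of, Ag.comm_eq, Ag.conj_tr]
    unfold word
    rw [map_mul, FreeGroup.lift_apply_of, FreeGroup.lift_apply_of, Ag.mul_a, Units.val_mul]
  unfold rel
  rw [map_list_prod, List.map_map]
  have h2 : (FreeGroup.lift f ∘ fun e : Fin a × Fin b => word e * cuv * (word e)⁻¹) =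
      Ag.tr ∘ fun e : Fin a × Fin b => ((f (Sum.inr (Sum.inl e.1))).a : K) *
        (f (Sum.inr (Sum.inr e.2))).a * Ag.dd (f (Sum.inl 0)) (f (Sum.inl 1)) :=
    funext h1
  rw [h2, ← List.map_map, Ag.prod_tr, List.sum_map_mul_right]

/-- The condition on the slopes. -/
def Q (E : Fin c → List (Fin a × Fin b)) (s : Fin a ⊕ Fin b → Kˣ) : Prop :=
  ∀ l, ((E l).map fun e => (s (Sum.inl e.1) : K) * s (Sum.inr e.2)).sum = 0

lemma cond_iff (E : Fin c → List (Fin a × Fin b)) (f : Gen a b → Ag K) :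
    (∀ r ∈ Set.range (fun l => rel (E l)), FreeGroup.lift f r = 1) ↔
      Ag.dd (f (Sum.inl 0)) (f (Sum.inl 1)) = 0 ∨ Q E fun v => (f (Sum.inr v)).a := by
  rw [Set.forall_mem_range]
  have h : ∀ l, FreeGroup.lift f (rel (E l)) = 1 ↔
      Ag.dd (f (Sum.inl 0)) (f (Sum.inl 1)) = 0 ∨ ((E l).map fun e =>
        ((f (Sum.inr (Sum.inl e.1))).a : K) * (f (Sum.inr (Sum.inr e.2))).a).sum = 0 := by
    intro l
    rw [lift_rel, Ag.tr_eq_one, mul_eq_zero, or_comm]
  simp only [h]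
  exact forall_or_left

end eval

section count

variable (K : Type) [Field K]

/-- `Ag K` as a product. -/
def agProd : Ag K ≃ Kˣ × K where
  toFun g := (g.a, g.b)
  invFun x := ⟨x.1, x.2⟩
  left_inv _ := rfl
  right_inv _ := rfl

/-- The tuples. -/
def tupE (ι : Type) : (Fin 2 ⊕ ι → Ag K) ≃ (Ag K × Ag K) × ((ι → Kˣ) × (ι → K)) where
  toFun f := ((f (Sum.inl 0), f (Sum.inl 1)), (fun v => (f (Sum.inr v)).a, fun v => (f (Sum.inr v)).b))
  invFun x := Sum.elim ![x.1.1, x.1.2] fun v => ⟨x.2.1 v, x.2.2 v⟩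
  left_inv f := by
    funext v
    rcases v with v | v
    · fin_cases v <;> rfl
    · rfl
  right_inv x := rfl

/-- `P x ∨ Q y` -/
lemma card_or {A B : Type} [Finite A] [Finite B] (P : A → Prop) (R : B → Prop) :
    Nat.card {x : A × B // P x.1 ∨ R x.2} =
      Nat.card {x : A // P x} * Nat.card B + Nat.card {x : A // ¬ P x} * Nat.card {y : B // R y} := by
  classical
  rw [← Nat.card_prod, ← Nat.card_prod, ← Nat.card_sum]
  refine Nat.card_congr
    { toFun := fun x => if h : P x.1.1 then Sum.inl (⟨x.1.1, h⟩, x.1.2) else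
        Sum.inr (⟨x.1.1, h⟩, ⟨x.1.2, x.2.resolve_left h⟩)
      invFun := Sum.elim (fun x => ⟨(x.1.1, x.2), Or.inl x.1.2⟩) fun x => ⟨(x.1.1, x.2.1), Or.inr x.2.2⟩
      left_inv := ?_
      right_inv := ?_ }
  · intro x
    beta_reduce
    split_ifs with h
    · rfl
    · rfl
  · rintro (x | x)
    · exact dif_pos x.1.2
    · exact dif_neg x.1.2

variable [Finite K]

instance : Finite (Ag K) := Finite.of_equiv _ (agProd K).symm

lemma card_units : Nat.card Kˣ + 1 = Nat.card K := by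
  rw [Nat.card_units]
  have := Nat.card_pos (α := K)
  omega

/-- The fibre over the pair of the slopes. -/
lemma card_fib (s : Kˣ × Kˣ) (hs : s ≠ 1) :
    Nat.card {β : K × K // ((s.1 : K) - 1) * β.2 - ((s.2 : K) - 1) * β.1 = 0} = Nat.card K := by
  by_cases h1 : (s.1 : K) - 1 = 0
  · have h2 : (s.2 : K) - 1 ≠ 0 := by
      intro h2
      exact hs (Prod.ext (Units.ext (sub_eq_zero.1 h1)) (Units.ext (sub_eq_zero.1 h2)))
    refine Nat.card_congr
      { toFun := fun β => β.1.2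
        invFun := fun t => ⟨(0, t), by
          beta_reduce
          rw [h1, zero_mul, mul_zero, sub_zero]⟩
        left_inv := ?_
        right_inv := fun _ => rfl }
    rintro ⟨⟨β₁, β₂⟩, hβ⟩
    have h3 : ((s.1 : K) - 1) * β₂ - ((s.2 : K) - 1) * β₁ = 0 := hβ
    rw [h1, zero_mul, zero_sub, neg_eq_zero] at h3
    exact Subtype.ext (Prod.ext ((mul_eq_zero.1 h3).resolve_left h2).symm rfl)
  · refine Nat.card_congr
      { toFun := fun β => β.1.1
        invFun := fun t => ⟨(t, ((s.2 : K) - 1) * t / ((s.1 : K) - 1)), by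
          beta_reduce
          rw [mul_div_cancel₀ _ h1, sub_self]⟩
        left_inv := ?_
        right_inv := fun _ => rfl }
    intro β
    have h3 : ((s.1 : K) - 1) * β.1.2 - ((s.2 : K) - 1) * β.1.1 = 0 := β.2
    refine Subtype.ext (Prod.ext rfl ?_)
    change ((s.2 : K) - 1) * β.1.1 / ((s.1 : K) - 1) = β.1.2
    rw [div_eq_iff h1]
    linear_combination -h3

/-- The commuting pairs. -/
lemma card_comm : Nat.card {g : Ag K × Ag K // Ag.dd g.1 g.2 = 0} =
    Nat.card K ^ 2 * Nat.card Kˣ := by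
  classical
  have e : {g : Ag K × Ag K // Ag.dd g.1 g.2 = 0} ≃
      Σ s : Kˣ × Kˣ, {β : K × K // ((s.1 : K) - 1) * β.2 - ((s.2 : K) - 1) * β.1 = 0} :=
    { toFun := fun g => ⟨(g.1.1.a, g.1.2.a), ⟨(g.1.1.b, g.1.2.b), g.2⟩⟩
      invFun := fun x => ⟨(⟨x.1.1, x.2.1.1⟩, ⟨x.1.2, x.2.1.2⟩), x.2.2⟩
      left_inv := fun _ => rfl
      right_inv := fun _ => rfl }
  have := Fintype.ofFinite (Kˣ × Kˣ)
  rw [Nat.card_congr e, Nat.card_sigma, ← Finset.add_sum_erase _ _ (Finset.mem_univ (1 : Kˣ × Kˣ))]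
  have h1 : Nat.card {β : K × K // (((1 : Kˣ × Kˣ).1 : K) - 1) * β.2 -
      (((1 : Kˣ × Kˣ).2 : K) - 1) * β.1 = 0} = Nat.card K ^ 2 := by
    rw [sq, ← Nat.card_prod]
    refine Nat.card_congr (Equiv.subtypeUnivEquiv fun β => ?_)
    change (((1 : Kˣ) : K) - 1) * β.2 - (((1 : Kˣ) : K) - 1) * β.1 = 0
    rw [Units.val_one, sub_self, zero_mul, zero_mul, sub_zero]
  have h2 : ∀ s ∈ (Finset.univ : Finset (Kˣ × Kˣ)).erase 1,
      Nat.card {β : K × K // ((s.1 : K) - 1) * β.2 - ((s.2 : K) - 1) * β.1 = 0} = Nat.card K :=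
    fun s hs => card_fib K s (Finset.ne_of_mem_erase hs)
  rw [h1, Finset.sum_congr rfl h2, Finset.sum_const, Finset.card_erase_of_mem (Finset.mem_univ _),
    Finset.card_univ, ← Nat.card_eq_fintype_card, Nat.card_prod, smul_eq_mul]
  have h3 := card_units K
  have h4 : 0 < Nat.card Kˣ := Nat.card_pos
  obtain ⟨n, hn⟩ : ∃ n, Nat.card Kˣ = n + 1 := ⟨Nat.card Kˣ - 1, by omega⟩
  rw [← h3, hn]
  have h5 : (n + 1) * (n + 1) - 1 = n * (n + 2) := by
    have : (n + 1) * (n + 1) = n * (n + 2) + 1 := by ring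
    omega
  rw [h5]
  ring

/-- The pairs that do not commute. -/
lemma card_noncomm : (Nat.card {g : Ag K × Ag K // ¬ Ag.dd g.1 g.2 = 0} : ℂ) =
    (Nat.card K : ℂ) ^ 2 * (((Nat.card K : ℂ) - 1) * ((Nat.card K : ℂ) - 2)) := by
  classical
  have h1 : Nat.card {g : Ag K × Ag K // Ag.dd g.1 g.2 = 0} +
      Nat.card {g : Ag K × Ag K // ¬ Ag.dd g.1 g.2 = 0} = Nat.card (Ag K × Ag K) := by
    rw [← Nat.card_sum]
    exact Nat.card_congr (Equiv.sumCompl _)
  have h2 : Nat.card (Ag K × Ag K) = (Nat.card Kˣ * Nat.card K) ^ 2 := by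
    rw [Nat.card_prod, Nat.card_congr (agProd K), Nat.card_prod, sq]
  have h6 : (Nat.card Kˣ : ℂ) = (Nat.card K : ℂ) - 1 := by
    rw [← card_units K]
    push_cast
    ring
  have h8 : ((Nat.card {g : Ag K × Ag K // Ag.dd g.1 g.2 = 0} : ℕ) : ℂ) +
      (Nat.card {g : Ag K × Ag K // ¬ Ag.dd g.1 g.2 = 0} : ℂ) =
      ((Nat.card Kˣ * Nat.card K : ℕ) : ℂ) ^ 2 := by
    rw [h2] at h1
    exact_mod_cast h1
  rw [card_comm] at h8
  push_cast at h8
  rw [h6] at h8
  linear_combination h8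

/-- The number of the homomorphisms. -/
theorem homNumber_gam (E : Fin c → List (Fin a × Fin b)) :
    (homNumber (Gam E) K : ℂ) = (Nat.card K : ℂ) ^ (a + b + 2) * ((Nat.card K : ℂ) - 1) ^ (a + b + 1) +
      (Nat.card K : ℂ) ^ (a + b + 2) * (((Nat.card K : ℂ) - 1) * (((Nat.card K : ℂ) - 2) *
        (Nat.card {s : Fin a ⊕ Fin b → Kˣ // Q E s} : ℂ))) := by
  classical
  have h0 : homNumber (Gam E) K = Nat.card {x : (Ag K × Ag K) × ((Fin a ⊕ Fin b → Kˣ) ×
      (Fin a ⊕ Fin b → K)) // (fun g : Ag K × Ag K => Ag.dd g.1 g.2 = 0) x.1 ∨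
        (fun y : (Fin a ⊕ Fin b → Kˣ) × (Fin a ⊕ Fin b → K) => Q E y.1) x.2} := by
    rw [homNumber_presented]
    refine Nat.card_congr (Equiv.subtypeEquiv (tupE K (Fin a ⊕ Fin b)) fun f => ?_)
    exact cond_iff E f
  have h3 : Nat.card {y : (Fin a ⊕ Fin b → Kˣ) × (Fin a ⊕ Fin b → K) // Q E y.1} =
      Nat.card {s : Fin a ⊕ Fin b → Kˣ // Q E s} * Nat.card K ^ (a + b) := by
    have h4 : Nat.card (Fin a ⊕ Fin b → K) = Nat.card K ^ (a + b) := by
      rw [Nat.card_fun, Nat.card_eq_fintype_card (α := Fin a ⊕ Fin b), Fintype.card_sum,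
        Fintype.card_fin, Fintype.card_fin]
    rw [← h4, ← Nat.card_prod]
    exact Nat.card_congr
      { toFun := fun y => (⟨y.1.1, y.2⟩, y.1.2)
        invFun := fun z => ⟨(z.1.1, z.2), z.1.2⟩
        left_inv := fun _ => rfl
        right_inv := fun _ => rfl }
  have h5 : Nat.card ((Fin a ⊕ Fin b → Kˣ) × (Fin a ⊕ Fin b → K)) =
      Nat.card Kˣ ^ (a + b) * Nat.card K ^ (a + b) := by
    rw [Nat.card_prod, Nat.card_fun, Nat.card_fun, Nat.card_eq_fintype_card (α := Fin a ⊕ Fin b),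
      Fintype.card_sum, Fintype.card_fin, Fintype.card_fin]
  have h6 : (Nat.card Kˣ : ℂ) = (Nat.card K : ℂ) - 1 := by
    rw [← card_units K]
    push_cast
    ring
  have h9 := card_or (fun g : Ag K × Ag K => Ag.dd g.1 g.2 = 0)
    (fun y : (Fin a ⊕ Fin b → Kˣ) × (Fin a ⊕ Fin b → K) => Q E y.1)
  rw [h0, h9, h3, h5]
  push_cast
  rw [card_noncomm, card_comm]
  push_cast
  rw [h6]
  ring

end count

end Pool.Agent.H865.RV
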