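import Pool.Agent.H865.RV.Gr

/-!
# The scheme `Hom(Γ, AGL_1)` for a finitely generated group `Γ`
-/

set_option autoImplicit false

open MvPolynomial

namespace Pool.Agent.H865.RV

namespace Sc

/-- The variables `a_i, a'_i, b_i`. -/
abbrev Vr (n : ℕ) : Type := (Fin n ⊕ Fin n) ⊕ Fin n

/-- The equation `a_i a'_i = 1`. -/
noncomputable def eqn (n : ℕ) (i : Fin n) : MvPolynomial (Vr n) ℤ :=
  X (Sum.inl (Sum.inl i)) * X (Sum.inl (Sum.inr i)) - 1

/-- The coordinate ring of `AGL_1 ^ n`. -/
abbrev R (n : ℕ) : Type := MvPolynomial (Vr n) ℤ ⧸ Ideal.span (Set.range (eqn n))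

variable {n : ℕ}

/-- The coordinates. -/
noncomputable def co (v : Vr n) : R n := Ideal.Quotient.mk _ (X v)

lemma co_mul (i : Fin n) : co (Sum.inl (Sum.inl i)) * co (Sum.inl (Sum.inr i)) = (1 : R n) := by
  have h : Ideal.Quotient.mk (Ideal.span (Set.range (eqn n))) (eqn n i) = 0 :=
    Ideal.Quotient.eq_zero_iff_mem.2 (Ideal.subset_span (Set.mem_range_self i))
  rw [eqn, map_sub, map_mul, map_one, sub_eq_zero] at h
  exact h

/-- The universal tuple. -/
noncomputable def U (i : Fin n) : Ag (R n) :=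
  ⟨⟨co (Sum.inl (Sum.inl i)), co (Sum.inl (Sum.inr i)), co_mul i, by
    rw [mul_comm]
    exact co_mul i⟩, co (Sum.inr i)⟩

/-- The ideal of the relations. -/
noncomputable def J (rels : Set (FreeGroup (Fin n))) : Ideal (R n) :=
  Ideal.span {x | ∃ r ∈ rels, x = ((FreeGroup.lift U r).a : R n) - 1 ∨ x = (FreeGroup.lift U r).b}

lemma lift_map {S : Type} [CommRing S] (ψ : R n →+* S) (r : FreeGroup (Fin n)) :
    FreeGroup.lift (fun i => Ag.map ψ (U i)) r = Ag.map ψ (FreeGroup.lift U r) := by
  have h : FreeGroup.lift (fun i => Ag.map ψ (U i)) = (Ag.map ψ).comp (FreeGroup.lift U) := by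
    ext i
    · simp
    · simp
  rw [h]
  rfl

/-- The relations hold after a homomorphism that kills the ideal. -/
lemma rel_iff {S : Type} [CommRing S] (ψ : R n →+* S) (rels : Set (FreeGroup (Fin n))) :
    (∀ x ∈ J rels, ψ x = 0) ↔ ∀ r ∈ rels, FreeGroup.lift (fun i => Ag.map ψ (U i)) r = 1 := by
  constructor
  · intro h r hr
    rw [lift_map]
    refine Ag.ext (Units.ext ?_) ?_
    · have h1 := h _ (Ideal.subset_span ⟨r, hr, Or.inl rfl⟩)
      rw [map_sub, map_one, sub_eq_zero] at h1
      exact h1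
    · exact h _ (Ideal.subset_span ⟨r, hr, Or.inr rfl⟩)
  · intro h x hx
    have h2 : J rels ≤ RingHom.ker ψ := by
      refine Ideal.span_le.2 ?_
      rintro y ⟨r, hr, hy⟩
      have h3 := h r hr
      rw [lift_map] at h3
      rcases hy with rfl | rfl
      · change ψ _ = 0
        rw [map_sub, map_one, sub_eq_zero]
        exact congrArg (fun g : Ag S => (g.a : S)) h3
      · exact congrArg Ag.b h3
    exact h2 hx

/-- The values of the variables at a tuple. -/
def vals {S : Type} [CommRing S] (f : Fin n → Ag S) : Vr n → S :=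
  Sum.elim (Sum.elim (fun i => ((f i).a : S)) fun i => (((f i).a⁻¹ : Sˣ) : S)) fun i => (f i).b

/-- The homomorphism of a tuple. -/
noncomputable def ofTuple {S : Type} [CommRing S] (f : Fin n → Ag S) : R n →+* S :=
  Ideal.Quotient.lift _ (eval₂Hom (Int.castRingHom S) (vals f)) (by
    intro x hx
    have h : Ideal.span (Set.range (eqn n)) ≤ RingHom.ker (eval₂Hom (Int.castRingHom S) (vals f)) := by
      refine Ideal.span_le.2 ?_
      rintro _ ⟨i, rfl⟩
      change eval₂Hom (Int.castRingHom S) (vals f) (eqn n i) = 0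
      rw [eqn, map_sub, map_mul, map_one, eval₂Hom_X', eval₂Hom_X']
      change ((f i).a : S) * (((f i).a⁻¹ : Sˣ) : S) - 1 = 0
      rw [Units.mul_inv, sub_self]
    exact h hx)

lemma ofTuple_co {S : Type} [CommRing S] (f : Fin n → Ag S) (v : Vr n) :
    ofTuple f (co v) = vals f v := by
  change eval₂Hom (Int.castRingHom S) (vals f) (X v) = vals f v
  rw [eval₂Hom_X']

lemma map_ofTuple {S : Type} [CommRing S] (f : Fin n → Ag S) (i : Fin n) :
    Ag.map (ofTuple f) (U i) = f i :=
  Ag.ext (Units.ext (ofTuple_co f _)) (ofTuple_co f _)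

lemma hom_ext {S : Type} [CommRing S] {φ ψ : R n →+* S}
    (h : ∀ i, Ag.map φ (U i) = Ag.map ψ (U i)) : φ = ψ := by
  refine Ideal.Quotient.ringHom_ext (MvPolynomial.ringHom_ext (fun r => ?_) fun v => ?_)
  · have h1 : (φ.comp (Ideal.Quotient.mk _)).comp (C : ℤ →+* MvPolynomial (Vr n) ℤ) =
        (ψ.comp (Ideal.Quotient.mk _)).comp C := RingHom.ext_int _ _
    exact RingHom.congr_fun h1 r
  · rcases v with (i | i) | i
    · exact congrArg (fun g : Ag S => (g.a : S)) (h i)
    · exact congrArg (fun g : Ag S => ((g.a⁻¹ : Sˣ) : S)) (h i)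
    · exact congrArg Ag.b (h i)

/-- The points. -/
noncomputable def pts (rels : Set (FreeGroup (Fin n))) (S : Type) [CommRing S] :
    ((R n ⧸ J rels) →+* S) ≃ {f : Fin n → Ag S // ∀ r ∈ rels, FreeGroup.lift f r = 1} where
  toFun φ := ⟨fun i => Ag.map (φ.comp (Ideal.Quotient.mk (J rels))) (U i),
    (rel_iff _ rels).1 fun x hx => by
      rw [RingHom.comp_apply, Ideal.Quotient.eq_zero_iff_mem.2 hx, map_zero]⟩
  invFun f := Ideal.Quotient.lift (J rels) (ofTuple f.1) ((rel_iff _ rels).2 (by
    have h : (fun i => Ag.map (ofTuple f.1) (U i)) = f.1 := funext fun i => map_ofTuple f.1 i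
    rw [h]
    exact f.2))
  left_inv φ := by
    refine Ideal.Quotient.ringHom_ext ?_
    refine hom_ext fun i => ?_
    have h : (Ideal.Quotient.lift (J rels) (ofTuple fun i =>
        Ag.map (φ.comp (Ideal.Quotient.mk (J rels))) (U i)) ((rel_iff _ rels).2 (by
      have h : (fun i => Ag.map (ofTuple fun i =>
        Ag.map (φ.comp (Ideal.Quotient.mk (J rels))) (U i)) (U i)) = _ :=
          funext fun i => map_ofTuple (fun i =>
            Ag.map (φ.comp (Ideal.Quotient.mk (J rels))) (U i)) i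
      rw [h]
      exact (rel_iff _ rels).1 fun x hx => by
        rw [RingHom.comp_apply, Ideal.Quotient.eq_zero_iff_mem.2 hx, map_zero]))).comp
          (Ideal.Quotient.mk (J rels)) = ofTuple fun i =>
            Ag.map (φ.comp (Ideal.Quotient.mk (J rels))) (U i) := by
      refine RingHom.ext fun x => ?_
      rw [RingHom.comp_apply, Ideal.Quotient.lift_mk]
    rw [h, map_ofTuple]
  right_inv f := by
    refine Subtype.ext (funext fun i => ?_)
    change Ag.map ((Ideal.Quotient.lift (J rels) (ofTuple f.1) _).comp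
      (Ideal.Quotient.mk (J rels))) (U i) = f.1 i
    have h : (Ideal.Quotient.lift (J rels) (ofTuple f.1) ((rel_iff _ rels).2 (by
        have h : (fun i => Ag.map (ofTuple f.1) (U i)) = f.1 := funext fun i => map_ofTuple f.1 i
        rw [h]
        exact f.2))).comp (Ideal.Quotient.mk (J rels)) = ofTuple f.1 := by
      refine RingHom.ext fun x => ?_
      rw [RingHom.comp_apply, Ideal.Quotient.lift_mk]
    rw [h, map_ofTuple]

end Sc

/-- The scheme `Hom(Γ, AGL_1)` is an affine scheme of finite type over `ℤ`. -/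
theorem exists_ring {n : ℕ} (rels : Set (FreeGroup (Fin n))) :
    ∃ (A : Type) (_ : CommRing A), Algebra.FiniteType ℤ A ∧
      ∀ (K : Type) [Field K], Nat.card (A →+* K) = homNumber (PresentedGroup rels) K := by
  refine ⟨Sc.R n ⧸ Sc.J rels, inferInstance, ?_, fun K _ => ?_⟩
  · have h1 : Algebra.FiniteType ℤ (Sc.R n) :=
      Algebra.FiniteType.of_surjective (Ideal.Quotient.mkₐ ℤ (Ideal.span (Set.range (Sc.eqn n))))
        (Ideal.Quotient.mkₐ_surjective ℤ _)
    exact Algebra.FiniteType.of_surjective (Ideal.Quotient.mkₐ ℤ (Sc.J rels))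
      (Ideal.Quotient.mkₐ_surjective ℤ _)
  · rw [homNumber_presented]
    exact Nat.card_congr (Sc.pts rels K)

end Pool.Agent.H865.RV
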