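import Pool.Agent.H865.RV.Ct
import Pool.Agent.H865.RV.Rl
import Pool.Agent.H865.RV.Sc

/-!
# Zeta functions of the schemes `Hom(Γ, AGL_1)`
-/

set_option autoImplicit false

open CategoryTheory AlgebraicGeometry Pool.Agent.Y116.UV Pool.Agent.Q193.Zeta Pool.Agent.Q282.UZ
  Pool.Agent.NH36.Cz

namespace Pool.Agent.H865.RV

/-- The series `∑_p ∑_{n ≥ 1} φ(𝔽_{p^n}) p^{-ns} / n` converges in a half-plane and its exponential
extends to a meromorphic function on `ℂ`. -/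
def CountContinues (φ : ∀ (K : Type) [Field K], ℕ) : Prop :=
  ∃ F : ℂ → ℂ, MeromorphicOn F Set.univ ∧ ∃ σ : ℝ, ∀ s : ℂ, σ < s.re → ∃ L : ℂ,
    HasSum (fun x : Nat.Primes × ℕ =>
      (φ (@GaloisField x.1 ⟨x.1.2⟩ (x.2 + 1)) : ℂ) / (x.2 + 1 : ℂ) *
        ((x.1 : ℕ) : ℂ) ^ (-(((x.2 + 1 : ℕ) : ℂ) * s))) L ∧ F s = Complex.exp L

section series

variable (φ : ∀ (K : Type) [Field K], ℕ)

lemma hasSum_gf {f : ℕ → ℂ} {C k : ℕ} (h : ∀ m, IsPrimePow m → ‖f m‖ ≤ C * (m : ℝ) ^ k)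
    (hf : ∀ (K : Type) [Field K] [Finite K], f (Nat.card K) = (φ K : ℂ)) {s : ℂ}
    (hs : (k : ℝ) + 1 < s.re) :
    HasSum (fun x : Nat.Primes × ℕ =>
      (φ (@GaloisField x.1 ⟨x.1.2⟩ (x.2 + 1)) : ℂ) / (x.2 + 1 : ℂ) *
        ((x.1 : ℕ) : ℂ) ^ (-(((x.2 + 1 : ℕ) : ℂ) * s))) (LSeries (coef f) s) := by
  have h1 : HasSum (LSeries.term (coef f) s) (LSeries (coef f) s) := (A5.summ h hs).hasSum
  have h2 : Function.support (LSeries.term (coef f) s) ⊆ {n : ℕ | IsPrimePow n} := by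
    intro n hn
    by_contra hc'
    have hc : ¬ IsPrimePow n := hc'
    apply hn
    rcases eq_or_ne n 0 with rfl | h0
    · exact LSeries.term_zero _ _
    · rw [LSeries.term_of_ne_zero h0]
      have h3 : coef f n = 0 := by
        unfold coef
        rw [if_neg hc]
      rw [h3, zero_div]
  rw [← hasSum_subtype_iff_of_support_subset h2] at h1
  have h3 := (Nat.Primes.prodNatEquiv.hasSum_iff).2 h1
  have e : ∀ x : Nat.Primes × ℕ, LSeries.term (coef f) s ((x.1 : ℕ) ^ (x.2 + 1)) =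
      (φ (@GaloisField x.1 ⟨x.1.2⟩ (x.2 + 1)) : ℂ) / (x.2 + 1 : ℂ) *
        ((x.1 : ℕ) : ℂ) ^ (-(((x.2 + 1 : ℕ) : ℂ) * s)) := by
    rintro ⟨p, n⟩
    have h4 : LSeries.term (coef f) s ((p : ℕ) ^ (n + 1)) = f ((p : ℕ) ^ (n + 1)) / (n + 1 : ℂ) *
        ((p : ℕ) : ℂ) ^ (-(((n + 1 : ℕ) : ℂ) * s)) := A5.term_pp f p n s
    have : Fact (p : ℕ).Prime := ⟨p.2⟩
    have h5 : f ((p : ℕ) ^ (n + 1)) = (φ (GaloisField (p : ℕ) (n + 1)) : ℂ) := by
      rw [← hf, GaloisField.card (p : ℕ) (n + 1) (Nat.succ_ne_zero n)]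
    rw [h5] at h4
    exact h4
  have h6 : HasSum (fun x : Nat.Primes × ℕ => LSeries.term (coef f) s ((x.1 : ℕ) ^ (x.2 + 1)))
      (LSeries (coef f) s) := h3
  rw [funext e] at h6
  exact h6

/-- The double series and the Dirichlet series. -/
theorem cont_iff {f : ℕ → ℂ} (hB : Bd f)
    (hf : ∀ (K : Type) [Field K] [Finite K], f (Nat.card K) = (φ K : ℂ)) :
    CountContinues φ ↔ HC f := by
  obtain ⟨C, k, h⟩ := hB
  constructor
  · rintro ⟨F, hF, σ, hσ⟩
    refine ⟨F, hF, max σ ((k : ℝ) + 1), fun s hs => ?_⟩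
    obtain ⟨L, hL, e⟩ := hσ s (lt_of_le_of_lt (le_max_left _ _) hs)
    have h1 := hasSum_gf φ h hf (lt_of_le_of_lt (le_max_right _ _) hs)
    rw [e, hL.unique h1]
  · rintro ⟨F, hF, σ, hσ⟩
    refine ⟨F, hF, max σ ((k : ℝ) + 1), fun s hs => ⟨LSeries (coef f) s,
      hasSum_gf φ h hf (lt_of_le_of_lt (le_max_right _ _) hs), ?_⟩⟩
    exact hσ s (lt_of_le_of_lt (le_max_left _ _) hs)

end series

/-- The scheme of a ring. -/
lemma cont_of_ring (H : ∀ X : Sch ℤ, FT False X → Co X) (φ : ∀ (K : Type) [Field K], ℕ) (A : Type)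
    [CommRing A] (hA : Algebra.FiniteType ℤ A)
    (hφ : ∀ (K : Type) [Field K] [Finite K], Nat.card (A →+* K) = φ K) : CountContinues φ := by
  obtain ⟨f, hf⟩ := t_A6 (aff ℤ A) (ft_aff False)
  obtain ⟨hB, hC⟩ := t_A4 (aff ℤ A) f (ft_aff False) hf
  have h1 : ∀ (K : Type) [Field K] [Finite K], f (Nat.card K) = (φ K : ℂ) := by
    intro K _ _
    rw [hf K, ← hφ K]
    exact congrArg _ (Nat.card_congr (ptAff A K))
  rw [cont_iff φ hB h1]
  exact hC.1 (H _ (ft_aff False))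

/-- All finitely generated groups. -/
theorem fg_cont (H : ∀ X : Sch ℤ, FT False X → Co X) (Γ : Type) [Group Γ] [Group.FG Γ] :
    CountContinues fun K _ => homNumber Γ K := by
  obtain ⟨n, φ, hφ⟩ : ∃ (n : ℕ) (φ : FreeGroup (Fin n) →* Γ), Function.Surjective φ := by
    obtain ⟨S, hS⟩ := Group.fg_iff.1 (inferInstance : Group.FG Γ)
    have := hS.2.to_subtype
    have := Fintype.ofFinite S
    obtain ⟨e⟩ : Nonempty (Fin (Fintype.card S) ≃ S) := ⟨(Fintype.equivFin S).symm⟩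
    refine ⟨Fintype.card S, FreeGroup.lift fun i => (e i : Γ), ?_⟩
    rw [← MonoidHom.range_eq_top, FreeGroup.range_lift_eq_closure]
    have h : Set.range (fun i => (e i : Γ)) = S := by
      rw [show (fun i => (e i : Γ)) = Subtype.val ∘ e from rfl, e.surjective.range_comp,
        Subtype.range_coe]
    rw [h]
    exact hS.1
  obtain ⟨A, _, hA, h⟩ := exists_ring (φ.ker : Set (FreeGroup (Fin n)))
  have e : PresentedGroup (φ.ker : Set (FreeGroup (Fin n))) ≃* Γ :=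
    (QuotientGroup.quotientMulEquivOfEq (Subgroup.normalClosure_eq_self φ.ker)).trans
      (QuotientGroup.quotientKerEquivOfSurjective φ hφ)
  refine cont_of_ring H (fun K _ => homNumber Γ K) A hA fun K _ _ => ?_
  rw [h K]
  exact card_hom_congr e (MulEquiv.refl _)

lemma bd_mul_sub {f : ℕ → ℂ} (hf : Bd f) (c : ℕ) : Bd fun m => ((m : ℂ) - c) * f m := by
  obtain ⟨C, k, h⟩ := hf
  refine ⟨(1 + c) * C, 1 + k, fun m hm => ?_⟩
  have h1 : (1 : ℝ) ≤ m := by exact_mod_cast hm.pos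
  have h2 : ‖(m : ℂ) - c‖ ≤ (1 + c) * (m : ℝ) ^ 1 := by
    refine (norm_sub_le _ _).trans ?_
    rw [Complex.norm_natCast, Complex.norm_natCast]
    have h3 : (0 : ℝ) ≤ c := Nat.cast_nonneg c
    nlinarith
  rw [norm_mul, pow_add]
  calc ‖(m : ℂ) - c‖ * ‖f m‖ ≤ ((1 + c) * (m : ℝ) ^ 1) * (C * (m : ℝ) ^ k) :=
        mul_le_mul h2 (h m hm) (norm_nonneg _) (by positivity)
    _ = (((1 + c) * C : ℕ) : ℝ) * ((m : ℝ) ^ 1 * (m : ℝ) ^ k) := by push_cast; ring

lemma bd_pow (N : ℕ) : Bd fun m => (m : ℂ) ^ N := by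
  refine ⟨1, N, fun m _ => ?_⟩
  rw [norm_pow, Complex.norm_natCast, Nat.cast_one, one_mul]

lemma bd_one_sub_pow (N M : ℕ) : Bd fun m => (m : ℂ) ^ N * ((m : ℂ) - 1) ^ M := by
  induction M with
  | zero =>
    refine ⟨1, N, fun m _ => ?_⟩
    beta_reduce
    rw [pow_zero, mul_one, norm_pow, Complex.norm_natCast, Nat.cast_one, one_mul]
  | succ M ih =>
    have h := bd_mul_sub ih 1
    have e : (fun m : ℕ => (m : ℂ) ^ N * ((m : ℂ) - 1) ^ (M + 1)) =
        fun m : ℕ => ((m : ℂ) - ((1 : ℕ) : ℂ)) * ((m : ℂ) ^ N * ((m : ℂ) - 1) ^ M) := by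
      funext m
      rw [Nat.cast_one]
      ring
    rw [e]
    exact h

lemma hn_le {a b c : ℕ} (E : Fin c → List (Fin a × Fin b)) (K : Type) [Field K] [Finite K] :
    homNumber (Gam E) K ≤ Nat.card K ^ (2 * (a + b + 2)) := by
  have h : Nat.card (Gen a b → Ag K) ≤ Nat.card K ^ (2 * (a + b + 2)) := by
    have h1 : Nat.card (Gen a b) = a + b + 2 := by
      rw [Nat.card_eq_fintype_card, Fintype.card_sum, Fintype.card_sum, Fintype.card_fin,
        Fintype.card_fin, Fintype.card_fin]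
      ring
    rw [Nat.card_fun, h1, Nat.card_congr (agProd K), Nat.card_prod, pow_mul, sq]
    refine Nat.pow_le_pow_left (Nat.mul_le_mul_right _ ?_) _
    have := card_units K
    omega
  rw [homNumber_presented]
  exact (Nat.card_le_card_of_injective Subtype.val Subtype.val_injective).trans h

/-- The counting function of `Γ_E`. -/
lemma exists_hn {a b c : ℕ} (E : Fin c → List (Fin a × Fin b)) :
    ∃ h : ℕ → ℂ, Bd h ∧ ∀ (K : Type) [Field K] [Finite K],
      h (Nat.card K) = (homNumber (Gam E) K : ℂ) := by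
  obtain ⟨h, hh⟩ := exists_fun (fun K _ => homNumber (Gam E) K) fun K L _ _ e => by
    rw [homNumber_eq, homNumber_eq]
    refine card_hom_congr (MulEquiv.refl _)
      { toFun := Ag.map (e : K →+* L)
        invFun := Ag.map (e.symm : L →+* K)
        left_inv := fun g => Ag.ext (Units.ext (e.symm_apply_apply _)) (e.symm_apply_apply _)
        right_inv := fun g => Ag.ext (Units.ext (e.apply_symm_apply _)) (e.apply_symm_apply _)
        map_mul' := map_mul _ }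
  exact ⟨h, bd_of (fun K _ => homNumber (Gam E) K) hh _ fun K _ _ => hn_le E K, hh⟩

/-- **From `Hom(Γ_E, AGL_1)` to the solutions in the torus.** -/
theorem torus_of_hom (H : ∀ (a b c : ℕ) (E : Fin c → List (Fin a × Fin b)),
      (∀ l, (E l).length ≤ 3) → CountContinues fun K _ => homNumber (Gam E) K)
    (a b c : ℕ) (E : Fin c → Finset (Fin a × Fin b)) (hE : ∀ l, (E l).card ≤ 3)
    (f : ℕ → ℂ) (hf : ∀ (K : Type) [Field K] [Finite K], f (Nat.card K) =
      (cn (Finset.univ : Finset (Fin a ⊕ Fin b)) E K : ℂ)) : HC f := by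
  classical
  have bf : Bd f := bd_of (fun K _ => cn Finset.univ E K) hf (a + b) fun K _ _ => cn_le _ E K
  have hne : ∀ m : ℕ, IsPrimePow m → (m : ℂ) ≠ 0 := fun m hm => pow_ne hm
  -- the free group
  obtain ⟨h₀, B₀, hh₀⟩ := exists_hn (a := a) (b := b) (c := 0) Fin.elim0
  have c₀ : HC h₀ := (cont_iff _ B₀ hh₀).1 (H a b 0 Fin.elim0 fun l => l.elim0)
  have e₀ : ∀ m, IsPrimePow m → h₀ m = ((m : ℂ) - 1) * ((m : ℂ) ^ (a + b + 2) *
      ((m : ℂ) - 1) ^ (a + b + 1)) := by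
    intro m hm
    obtain ⟨K, _, _, rfl⟩ := exists_card hm
    rw [hh₀ K, homNumber_gam]
    have h1 : (Nat.card {s : Fin a ⊕ Fin b → Kˣ // Q (c := 0) Fin.elim0 s} : ℂ) =
        ((Nat.card K : ℂ) - 1) ^ (a + b) := by
      have h2 : Nat.card {s : Fin a ⊕ Fin b → Kˣ // Q (c := 0) Fin.elim0 s} =
          Nat.card (Fin a ⊕ Fin b → Kˣ) :=
        Nat.card_congr (Equiv.subtypeUnivEquiv fun s l => l.elim0)
      rw [h2, Nat.card_fun, Nat.card_eq_fintype_card (α := Fin a ⊕ Fin b), Fintype.card_sum,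
        Fintype.card_fin, Fintype.card_fin, Nat.cast_pow, card_units']
    rw [h1]
    ring
  have c₁ : HC fun m : ℕ => (m : ℂ) ^ (a + b + 2) * ((m : ℂ) - 1) ^ (a + b + 1) :=
    hc_of_sub_one _ h₀ (bd_one_sub_pow _ _) e₀ c₀
  -- the group of the system
  obtain ⟨h, B, hh⟩ := exists_hn (fun l => (E l).toList)
  have c₂ : HC h := (cont_iff _ B hh).1 (H a b c _ fun l => by
    rw [Finset.length_toList]
    exact hE l)
  have e₂ : ∀ m, IsPrimePow m → h m = (m : ℂ) ^ (a + b + 2) * ((m : ℂ) - 1) ^ (a + b + 1) +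
      (m : ℂ) ^ (a + b + 2) * (((m : ℂ) - 1) * (((m : ℂ) - (2 : ℕ)) * f m)) := by
    intro m hm
    obtain ⟨K, _, _, rfl⟩ := exists_card hm
    rw [hh K, homNumber_gam, hf K]
    have h3 : Nat.card {s : Fin a ⊕ Fin b → Kˣ // Q (fun l => (E l).toList) s} =
        cn (Finset.univ : Finset (Fin a ⊕ Fin b)) E K := by
      refine Nat.card_congr
        { toFun := fun s => ⟨fun v => s.1 v, fun v _ => (s.1 v).ne_zero, fun l => ?_⟩
          invFun := fun z => ⟨fun v => Units.mk0 (z.1 v) (z.2.1 v (Finset.mem_univ v)), fun l => ?_⟩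
          left_inv := ?_
          right_inv := ?_ }
      · have := s.2 l
        rw [Finset.sum_map_toList] at this
        exact this
      · rw [Finset.sum_map_toList]
        exact z.2.2 l
      · intro s
        exact Subtype.ext (funext fun v => Units.ext rfl)
      · intro z
        rfl
    rw [h3, Nat.cast_ofNat]
  have c₃ : HC fun m : ℕ => (m : ℂ) ^ (a + b + 2) * (((m : ℂ) - 1) * (((m : ℂ) - (2 : ℕ)) * f m)) :=
    t_A1 h _ _ B (bd_one_sub_pow (a + b + 2) (a + b + 1)) (fun m hm => by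
      rw [e₂ m hm]
      ring) c₂ c₁
  have c₄ : HC fun m : ℕ => ((m : ℂ) - 1) * (((m : ℂ) - (2 : ℕ)) * f m) :=
    t_A2 _ _ (-((a + b + 2 : ℕ) : ℤ)) (fun m hm => by
      rw [zpow_neg, zpow_natCast, inv_mul_cancel_left₀ (pow_ne_zero _ (hne m hm))]) c₃
  have c₅ : HC fun m : ℕ => ((m : ℂ) - (2 : ℕ)) * f m :=
    hc_of_sub_one _ _ (bd_mul_sub bf 2) (fun m _ => rfl) c₄
  exact hc_of_sub_nat f _ 2 bf (fun m _ => rfl) c₅

/-- **The groups `Γ_E`.** -/
theorem all_of_gam (H : ∀ (a b c : ℕ) (E : Fin c → List (Fin a × Fin b)),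
      (∀ l, (E l).length ≤ 3) → CountContinues fun K _ => homNumber (Gam E) K) :
    ∀ X : Sch ℤ, FT False X → Co X :=
  all_of_torus (torus_of_hom H)

end Pool.Agent.H865.RV
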