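import Pool.Agent.H865.RV.Mg

/-!
# Homomorphisms to the group of the unitriangular `3 × 3` matrices
-/

set_option autoImplicit false

open scoped commutatorElement
open CategoryTheory AlgebraicGeometry Pool.Agent.Y116.UV Pool.Agent.Q193.Zeta Pool.Agent.Q282.UZ
  Pool.Agent.NH36.Cz

namespace Pool.Agent.H865.RV

/-- The upper unitriangular `3 × 3` matrices with the entries `x` and `y` above the diagonal and the
entry `z` in the corner. -/
@[ext]
structure Ut (R : Type) [CommRing R] where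
  /-- the entry in the position `(1, 2)` -/
  x : R
  /-- the entry in the position `(2, 3)` -/
  y : R
  /-- the entry in the position `(1, 3)` -/
  z : R

namespace Ut

section ring

variable {R S : Type} [CommRing R] [CommRing S]

instance : Group (Ut R) where
  mul g h := ⟨g.x + h.x, g.y + h.y, g.z + h.z + g.x * h.y⟩
  one := ⟨0, 0, 0⟩
  inv g := ⟨-g.x, -g.y, -g.z + g.x * g.y⟩
  mul_assoc g h l := by
    refine Ut.ext (add_assoc _ _ _) (add_assoc _ _ _) ?_
    change g.z + h.z + g.x * h.y + l.z + (g.x + h.x) * l.y =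
      g.z + (h.z + l.z + h.x * l.y) + g.x * (h.y + l.y)
    ring
  one_mul g := by
    refine Ut.ext (zero_add _) (zero_add _) ?_
    change 0 + g.z + 0 * g.y = g.z
    ring
  mul_one g := by
    refine Ut.ext (add_zero _) (add_zero _) ?_
    change g.z + 0 + g.x * 0 = g.z
    ring
  inv_mul_cancel g := by
    refine Ut.ext (neg_add_cancel _) (neg_add_cancel _) ?_
    change -g.z + g.x * g.y + g.z + -g.x * g.y = 0
    ring

lemma mul_x (g h : Ut R) : (g * h).x = g.x + h.x := rfl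
lemma mul_y (g h : Ut R) : (g * h).y = g.y + h.y := rfl
lemma mul_z (g h : Ut R) : (g * h).z = g.z + h.z + g.x * h.y := rfl
lemma inv_x (g : Ut R) : (g⁻¹).x = -g.x := rfl
lemma inv_y (g : Ut R) : (g⁻¹).y = -g.y := rfl
lemma inv_z (g : Ut R) : (g⁻¹).z = -g.z + g.x * g.y := rfl

/-- The central elements. -/
def ct (d : R) : Ut R := ⟨0, 0, d⟩

lemma ct_mul (d e : R) : ct d * ct e = ct (d + e) := by
  refine Ut.ext (add_zero _) (add_zero _) ?_
  change d + e + 0 * 0 = d + e
  ring

lemma ct_zero : ct (0 : R) = 1 := rfl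

lemma ct_eq_one {d : R} : ct d = 1 ↔ d = 0 :=
  ⟨fun h => congrArg Ut.z h, fun h => by rw [h, ct_zero]⟩

lemma ct_comm (d : R) (g : Ut R) : ct d * g = g * ct d := by
  refine Ut.ext ?_ ?_ ?_
  · change 0 + g.x = g.x + 0
    ring
  · change 0 + g.y = g.y + 0
    ring
  · change d + g.z + 0 * g.y = g.z + d + g.x * 0
    ring

lemma ct_zpow (d : R) (n : ℤ) : ct d ^ n = ct (n * d) := by
  let φ : Multiplicative R →* Ut R :=
    { toFun := fun r => ct r.toAdd
      map_one' := rfl
      map_mul' := fun r s => (ct_mul _ _).symm }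
  have h := map_zpow φ (Multiplicative.ofAdd d) n
  have h2 : (Multiplicative.ofAdd d) ^ n = Multiplicative.ofAdd (n * d) := by
    rw [← ofAdd_zsmul, zsmul_eq_mul]
  rw [h2] at h
  exact h.symm

lemma ct_prod (L : List R) : (L.map ct).prod = ct L.sum := by
  induction L with
  | nil => rfl
  | cons d L ih => rw [List.map_cons, List.prod_cons, List.sum_cons, ih, ct_mul]

lemma comm_eq (g h : Ut R) : ⁅g, h⁆ = ct (g.x * h.y - h.x * g.y) := by
  rw [commutatorElement_def]
  refine Ut.ext ?_ ?_ ?_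
  · change g.x + h.x + -g.x + -h.x = 0
    ring
  · change g.y + h.y + -g.y + -h.y = 0
    ring
  · change (g.z + h.z + g.x * h.y) + (-g.z + g.x * g.y) + (g.x + h.x) * -g.y +
      (-h.z + h.x * h.y) + (g.x + h.x + -g.x) * -h.y = g.x * h.y - h.x * g.y
    ring

lemma class_two (g h k : Ut R) : ⁅⁅g, h⁆, k⁆ = 1 := by
  rw [commutatorElement_eq_one_iff_mul_comm, comm_eq]
  exact ct_comm _ _

/-- Functoriality. -/
def map (φ : R →+* S) : Ut R →* Ut S where
  toFun g := ⟨φ g.x, φ g.y, φ g.z⟩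
  map_one' := Ut.ext (map_zero _) (map_zero _) (map_zero _)
  map_mul' g h := by
    refine Ut.ext (map_add _ _ _) (map_add _ _ _) ?_
    change φ (g.z + h.z + g.x * h.y) = φ g.z + φ h.z + φ g.x * φ h.y
    rw [map_add, map_add, map_mul]

end ring

/-- The three coordinates. -/
def prod (R : Type) [CommRing R] : Ut R ≃ R × R × R where
  toFun g := (g.x, g.y, g.z)
  invFun t := ⟨t.1, t.2.1, t.2.2⟩
  left_inv _ := rfl
  right_inv _ := rfl

instance (K : Type) [Field K] [Finite K] : Finite (Ut K) := Finite.of_equiv _ (prod K).symm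

end Ut

/-- `#Hom(Γ, UT_3(K))` -/
noncomputable def utNumber (Γ : Type) [Group Γ] (K : Type) [Field K] : ℕ := Nat.card (Γ →* Ut K)

namespace Su

open MvPolynomial

variable {n : ℕ}

/-- The coordinate ring of `UT_3 ^ n`. -/
abbrev R (n : ℕ) : Type := MvPolynomial (Fin n × Fin 3) ℤ

/-- The universal tuple. -/
noncomputable def U (i : Fin n) : Ut (R n) := ⟨X (i, 0), X (i, 1), X (i, 2)⟩

/-- The ideal of the relations. -/
noncomputable def J (rels : Set (FreeGroup (Fin n))) : Ideal (R n) :=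
  Ideal.span {x | ∃ r ∈ rels, x = (FreeGroup.lift U r).x ∨ x = (FreeGroup.lift U r).y ∨
    x = (FreeGroup.lift U r).z}

variable {S : Type} [CommRing S]

lemma lift_map (ψ : R n →+* S) (r : FreeGroup (Fin n)) :
    FreeGroup.lift (fun i => Ut.map ψ (U i)) r = Ut.map ψ (FreeGroup.lift U r) :=
  lift_comp' (Ut.map ψ) U r

lemma rel_iff (ψ : R n →+* S) (rels : Set (FreeGroup (Fin n))) :
    (∀ x ∈ J rels, ψ x = 0) ↔ ∀ r ∈ rels, FreeGroup.lift (fun i => Ut.map ψ (U i)) r = 1 := by
  constructor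
  · intro h r hr
    rw [lift_map]
    exact Ut.ext (h _ (Ideal.subset_span ⟨r, hr, Or.inl rfl⟩))
      (h _ (Ideal.subset_span ⟨r, hr, Or.inr (Or.inl rfl)⟩))
      (h _ (Ideal.subset_span ⟨r, hr, Or.inr (Or.inr rfl)⟩))
  · intro h x hx
    have h2 : J rels ≤ RingHom.ker ψ := by
      refine Ideal.span_le.2 ?_
      rintro y ⟨r, hr, hy⟩
      have h3 := h r hr
      rw [lift_map] at h3
      rcases hy with rfl | rfl | rfl
      · exact congrArg Ut.x h3
      · exact congrArg Ut.y h3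
      · exact congrArg Ut.z h3
    exact h2 hx

/-- The values of the variables. -/
def vals (f : Fin n → Ut S) (v : Fin n × Fin 3) : S := ![(f v.1).x, (f v.1).y, (f v.1).z] v.2

/-- The homomorphism of a tuple. -/
noncomputable def ofTuple (f : Fin n → Ut S) : R n →+* S := eval₂Hom (Int.castRingHom S) (vals f)

lemma map_ofTuple (f : Fin n → Ut S) (i : Fin n) : Ut.map (ofTuple f) (U i) = f i :=
  Ut.ext (eval₂Hom_X' _ _ _) (eval₂Hom_X' _ _ _) (eval₂Hom_X' _ _ _)

lemma hom_ext {φ ψ : R n →+* S} (h : ∀ i, Ut.map φ (U i) = Ut.map ψ (U i)) : φ = ψ := by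
  refine MvPolynomial.ringHom_ext (fun r => ?_) fun v => ?_
  · have h1 : φ.comp (C : ℤ →+* MvPolynomial (Fin n × Fin 3) ℤ) = ψ.comp C := RingHom.ext_int _ _
    exact RingHom.congr_fun h1 r
  · obtain ⟨i, j⟩ := v
    fin_cases j
    · exact congrArg Ut.x (h i)
    · exact congrArg Ut.y (h i)
    · exact congrArg Ut.z (h i)

lemma lift_comp_mk (rels : Set (FreeGroup (Fin n))) (g : R n →+* S) (hg : ∀ x ∈ J rels, g x = 0) :
    (Ideal.Quotient.lift (J rels) g hg).comp (Ideal.Quotient.mk (J rels)) = g :=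
  RingHom.ext fun _ => rfl

lemma rel_ofTuple (rels : Set (FreeGroup (Fin n))) (f : Fin n → Ut S)
    (hf : ∀ r ∈ rels, FreeGroup.lift f r = 1) : ∀ x ∈ J rels, ofTuple f x = 0 :=
  (rel_iff _ rels).2 (by
    have h : (fun i => Ut.map (ofTuple f) (U i)) = f := funext fun i => map_ofTuple f i
    rw [h]
    exact hf)

/-- The points. -/
noncomputable def pts (rels : Set (FreeGroup (Fin n))) :
    ((R n ⧸ J rels) →+* S) ≃ {f : Fin n → Ut S // ∀ r ∈ rels, FreeGroup.lift f r = 1} where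
  toFun φ := ⟨fun i => Ut.map (φ.comp (Ideal.Quotient.mk (J rels))) (U i),
    (rel_iff _ rels).1 fun x hx => by
      rw [RingHom.comp_apply, Ideal.Quotient.eq_zero_iff_mem.2 hx, map_zero]⟩
  invFun f := Ideal.Quotient.lift (J rels) (ofTuple f.1) (rel_ofTuple rels f.1 f.2)
  left_inv φ := by
    refine Ideal.Quotient.ringHom_ext ?_
    refine hom_ext fun i => ?_
    rw [lift_comp_mk, map_ofTuple]
  right_inv f := by
    refine Subtype.ext (funext fun i => ?_)
    change Ut.map ((Ideal.Quotient.lift (J rels) (ofTuple f.1) _).comp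
      (Ideal.Quotient.mk (J rels))) (U i) = f.1 i
    rw [lift_comp_mk, map_ofTuple]

end Su

/-- All finitely generated groups. -/
theorem fg_cont_ut (H : ∀ X : Sch ℤ, FT False X → Co X) (Γ : Type) [Group Γ] [Group.FG Γ] :
    CountContinues fun K _ => utNumber Γ K := by
  obtain ⟨n, rels, ⟨e⟩⟩ := exists_pres Γ
  have hA : Algebra.FiniteType ℤ (Su.R n ⧸ Su.J rels) :=
    Algebra.FiniteType.of_surjective (Ideal.Quotient.mkₐ ℤ (Su.J rels))
      (Ideal.Quotient.mkₐ_surjective ℤ _)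
  refine cont_of_ring H (fun K _ => utNumber Γ K) (Su.R n ⧸ Su.J rels) hA fun K _ _ => ?_
  rw [Nat.card_congr ((Su.pts rels).trans (homEquiv rels).symm)]
  exact card_hom_congr e (MulEquiv.refl _)

section tensor

variable {α β γ : Type} [Fintype α] [Fintype β] [Fintype γ]

/-- The relator of `k`. -/
noncomputable def trel (T : α → β → γ → ℤ) (k : γ) : FreeGroup (α ⊕ β) :=
  (((Finset.univ : Finset (α × β)).toList).map fun e =>
    ⁅(FreeGroup.of (Sum.inl e.1) : FreeGroup (α ⊕ β)), FreeGroup.of (Sum.inr e.2)⁆ ^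
      (T e.1 e.2 k)).prod

/-- All relators. -/
def trels (T : α → β → γ → ℤ) : Set (FreeGroup (α ⊕ β)) :=
  {r | ∃ g h k : FreeGroup (α ⊕ β), r = ⁅⁅g, h⁆, k⁆} ∪ Set.range (trel T)

/-- The group of nilpotency class two of the tensor `T`. -/
abbrev Ten (T : α → β → γ → ℤ) : Type := PresentedGroup (trels T)

lemma ten_class (T : α → β → γ → ℤ) (x y z : Ten T) : ⁅⁅x, y⁆, z⁆ = 1 := by
  obtain ⟨x, rfl⟩ := PresentedGroup.mk_surjective _ x
  obtain ⟨y, rfl⟩ := PresentedGroup.mk_surjective _ y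
  obtain ⟨z, rfl⟩ := PresentedGroup.mk_surjective _ z
  rw [← map_commutatorElement, ← map_commutatorElement]
  exact PresentedGroup.one_of_mem (Or.inl ⟨x, y, z, rfl⟩)

instance (T : α → β → γ → ℤ) : Group.FG (Ten T) :=
  Group.fg_of_surjective (PresentedGroup.mk_surjective _)

lemma lift_trel (T : α → β → γ → ℤ) {K : Type} [Field K] (f : α ⊕ β → Ut K) (k : γ) :
    FreeGroup.lift f (trel T k) = Ut.ct (bf T (fun i => (f (Sum.inl i)).x)
      (fun j => (f (Sum.inr j)).y) k - bf T (fun i => (f (Sum.inl i)).y)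
      (fun j => (f (Sum.inr j)).x) k) := by
  unfold trel
  rw [map_list_prod, List.map_map]
  have h2 : (FreeGroup.lift f ∘ fun e : α × β => ⁅(FreeGroup.of (Sum.inl e.1) : FreeGroup (α ⊕ β)),
      FreeGroup.of (Sum.inr e.2)⁆ ^ (T e.1 e.2 k)) =
      Ut.ct ∘ fun e : α × β => (T e.1 e.2 k : K) * ((f (Sum.inl e.1)).x * (f (Sum.inr e.2)).y -
        (f (Sum.inr e.2)).x * (f (Sum.inl e.1)).y) := by
    funext e
    simp only [Function.comp_apply]
    rw [map_zpow, map_commutatorElement, FreeGroup.lift_apply_of, FreeGroup.lift_apply_of,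
      Ut.comm_eq, Ut.ct_zpow]
  rw [h2, ← List.map_map, Ut.ct_prod, Finset.sum_map_toList]
  congr 1
  unfold bf
  rw [Fintype.sum_prod_type, ← Finset.sum_sub_distrib]
  refine Finset.sum_congr rfl fun i _ => ?_
  rw [← Finset.sum_sub_distrib]
  refine Finset.sum_congr rfl fun j _ => ?_
  ring

lemma utNumber_ten (T : α → β → γ → ℤ) (K : Type) [Field K] [Finite K] :
    utNumber (Ten T) K = comN T K * Nat.card K ^ (Fintype.card α + Fintype.card β) := by
  have h0 : utNumber (Ten T) K = Nat.card {f : α ⊕ β → Ut K // ∀ r ∈ trels T,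
      FreeGroup.lift f r = 1} := Nat.card_congr (homEquiv _)
  have h1 : Nat.card (α ⊕ β → K) = Nat.card K ^ (Fintype.card α + Fintype.card β) := by
    rw [Nat.card_fun, Nat.card_eq_fintype_card (α := α ⊕ β), Fintype.card_sum]
  have h2 : ∀ f : α ⊕ β → Ut K, (∀ r ∈ trels T, FreeGroup.lift f r = 1) ↔
      ∀ k, bf T (fun i => (f (Sum.inl i)).x) (fun j => (f (Sum.inr j)).y) k =
        bf T (fun i => (f (Sum.inl i)).y) (fun j => (f (Sum.inr j)).x) k := by
    intro f
    constructor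
    · intro h k
      have h3 := h _ (Or.inr ⟨k, rfl⟩)
      rw [lift_trel, Ut.ct_eq_one, sub_eq_zero] at h3
      exact h3
    · rintro h r (⟨x, y, z, rfl⟩ | ⟨k, rfl⟩)
      · rw [map_commutatorElement, map_commutatorElement, Ut.class_two]
      · rw [lift_trel, h k, sub_self, Ut.ct_zero]
  rw [h0, comN, ← h1, ← Nat.card_prod]
  exact Nat.card_congr
    { toFun := fun f => (⟨((fun i => (f.1 (Sum.inl i)).x, fun i => (f.1 (Sum.inl i)).y),
        (fun j => (f.1 (Sum.inr j)).x, fun j => (f.1 (Sum.inr j)).y)), (h2 f.1).1 f.2⟩,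
        fun v => (f.1 v).z)
      invFun := fun t => ⟨Sum.elim (fun i => ⟨t.1.1.1.1 i, t.1.1.1.2 i, t.2 (Sum.inl i)⟩)
        fun j => ⟨t.1.1.2.1 j, t.1.1.2.2 j, t.2 (Sum.inr j)⟩, (h2 _).2 t.1.2⟩
      left_inv := fun f => by
        refine Subtype.ext (funext fun v => ?_)
        rcases v with i | j <;> rfl
      right_inv := fun t => by
        refine Prod.ext rfl (funext fun v => ?_)
        rcases v with i | j <;> rfl }

/-- The commuting schemes. -/
lemma com_of_ut (H : ∀ (Γ : Type) [Group Γ] [Group.FG Γ], (∀ x y z : Γ, ⁅⁅x, y⁆, z⁆ = 1) →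
      CountContinues fun K _ => utNumber Γ K) (T : α → β → γ → ℤ) : Co (comS T) := by
  obtain ⟨f, hf⟩ := t_A6 (comS T) (ft_aff False)
  obtain ⟨hB, hC⟩ := t_A4 (comS T) f (ft_aff False) hf
  rw [hC]
  have h1 : ∀ (K : Type) [Field K] [Finite K], (fun m : ℕ => (m : ℂ) ^
      (Fintype.card α + Fintype.card β) * f m) (Nat.card K) = (utNumber (Ten T) K : ℂ) := by
    intro K _ _
    beta_reduce
    rw [utNumber_ten, hf K, t_P2 α β γ T K]
    push_cast
    ring
  have h2 := (cont_iff _ (bd_mul_m hB _) h1).1 (H (Ten T) (ten_class T))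
  refine t_A2 _ _ (-((Fintype.card α + Fintype.card β : ℕ) : ℤ)) (fun m hm => ?_) h2
  rw [zpow_neg, zpow_natCast, inv_mul_cancel_left₀ (pow_ne_zero _ (pow_ne hm))]

end tensor

/-- **The groups `Hom(Γ, UT_3)`.** -/
theorem all_of_ut (H : ∀ (Γ : Type) [Group Γ] [Group.FG Γ], (∀ x y z : Γ, ⁅⁅x, y⁆, z⁆ = 1) →
      CountContinues fun K _ => utNumber Γ K) : ∀ X : Sch ℤ, FT False X → Co X := by
  have hC : Pool.Agent.Q282.UK.Clo False Co :=
    ⟨bnd_co.iso, bnd_co.total, bnd_co.opened, bnd_co.torus⟩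
  refine (three_iff short_int hC).mpr fun a b c E _ => ?_
  exact sys_of t_A1 t_A2 t_A3 t_A4 t_A6 t_G2 t_G3 t_P1 t_P2 E (com_of_ut H (T1 E))
    (com_of_ut H (T2 E))

end Pool.Agent.H865.RV
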